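import Mathlib

set_option autoImplicit false

namespace Pool.Agent.Results.MP_23085c_co.NoHellyTransversal

open Module

/-! ### Definitions -/

/-- The translate `K + v`. -/
def Translate (d : ℕ) (K : Set (EuclideanSpace ℝ (Fin d))) (v : EuclideanSpace ℝ (Fin d)) :
    Set (EuclideanSpace ℝ (Fin d)) := {y | ∃ x ∈ K, y = x + v}

/-- Some `j`-dimensional affine subspace of `ℝᵈ` meets every translate `K + v`, `v ∈ Q`. -/
def HasTransversal (d j : ℕ) (K : Set (EuclideanSpace ℝ (Fin d)))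
    (Q : Finset (EuclideanSpace ℝ (Fin d))) : Prop :=
  ∃ F : AffineSubspace ℝ (EuclideanSpace ℝ (Fin d)),
    (F : Set (EuclideanSpace ℝ (Fin d))).Nonempty ∧ finrank ℝ F.direction = j ∧
      ∀ v ∈ Q, ((F : Set (EuclideanSpace ℝ (Fin d))) ∩ Translate d K v).Nonempty

/-- The family `K + v`, `v ∈ P`, is `k`-separated: no `k + 2` distinct members meet a common
`k`-dimensional affine subspace. -/
def IsSeparated (d k : ℕ) (K : Set (EuclideanSpace ℝ (Fin d)))
    (P : Finset (EuclideanSpace ℝ (Fin d))) : Prop :=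
  ∀ Q ⊆ P, Q.card = k + 2 → ¬ HasTransversal d k K Q

/-! ### Abstract configurations and the lifting step -/

/-- The defect of the hyperplane `a x + b y - s z = c` at the `i`-th centre. -/
def val {k n : ℕ} (X Y : Fin n → ℝ) (ζ : Fin n → Fin k → ℝ) (a b c : ℝ) (s : Fin k → ℝ)
    (i : Fin n) : ℝ :=
  a * X i + b * Y i - c - ∑ j, s j * ζ i j

/-- The size of a coefficient vector. -/
def size {k : ℕ} (a b c : ℝ) (s : Fin k → ℝ) : ℝ := |a| + |b| + |c| + ∑ j, |s j|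

lemma size_nonneg {k : ℕ} (a b c : ℝ) (s : Fin k → ℝ) : 0 ≤ size a b c s := by
  unfold size
  have : 0 ≤ ∑ j, |s j| := Finset.sum_nonneg (fun j _ => abs_nonneg _)
  positivity

/-- A configuration of `n` centres in `ℝ² × ℝᵏ` with the three robust properties. -/
structure Conf (k n r : ℕ) (K₀ : Set (ℝ × ℝ)) (h : ℝ → ℝ → ℝ) (X Y : Fin n → ℝ)
    (ζ : Fin n → Fin k → ℝ) (ρ : ℝ) : Prop where
  pos : 0 < ρ
  sep : ∀ μ : Fin n → ℝ, 0 < ∑ i, |μ i| →
    (Finset.univ.filter (fun i => μ i ≠ 0)).card ≤ k + 2 →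
    |∑ i, μ i| ≤ ρ * ∑ i, |μ i| → (∀ j, |∑ i, μ i * ζ i j| ≤ ρ * ∑ i, |μ i|) →
    ∀ x ∈ K₀, |∑ i, μ i * X i - (∑ i, |μ i|) * x.1| ≤ ρ * ∑ i, |μ i| →
      |∑ i, μ i * Y i - (∑ i, |μ i|) * x.2| ≤ ρ * ∑ i, |μ i| → False
  non : ∀ (a b c : ℝ) (s : Fin k → ℝ),
    (∀ i, |val X Y ζ a b c s i| ≤ h a b + ρ * size a b c s) → size a b c s = 0
  tra : ∀ S : Finset (Fin n), S.card ≤ r → ∃ (a b c : ℝ) (s : Fin k → ℝ), 0 < h a b ∧
    ∀ i ∈ S, |val X Y ζ a b c s i| < h a b

/-- lifted first or second coordinates -/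
def liftX {n : ℕ} (X : Fin n → ℝ) : Fin (n + 1) → ℝ := Fin.snoc (α := fun _ => ℝ) X 0

/-- lifted remaining coordinates -/
noncomputable def liftZ {k n : ℕ} (ζ : Fin n → Fin k → ℝ) (Λ : ℝ) : Fin (n + 1) → Fin (k + 1) → ℝ :=
  fun i => Fin.snoc (α := fun _ => ℝ)
    (Fin.snoc (α := fun _ => Fin k → ℝ) ζ (fun _ => 0) i : Fin k → ℝ) (Λ ^ ((i : ℕ) + 1))

@[simp] lemma liftX_castSucc {n : ℕ} (X : Fin n → ℝ) (i : Fin n) :
    liftX X i.castSucc = X i := by simp [liftX]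

@[simp] lemma liftX_last {n : ℕ} (X : Fin n → ℝ) : liftX X (Fin.last n) = 0 := by simp [liftX]

@[simp] lemma liftZ_last_coord {k n : ℕ} (ζ : Fin n → Fin k → ℝ) (Λ : ℝ) (i : Fin (n + 1)) :
    liftZ ζ Λ i (Fin.last k) = Λ ^ ((i : ℕ) + 1) := by simp [liftZ]

@[simp] lemma liftZ_castSucc {k n : ℕ} (ζ : Fin n → Fin k → ℝ) (Λ : ℝ) (i : Fin n) (j : Fin k) :
    liftZ ζ Λ i.castSucc j.castSucc = ζ i j := by simp [liftZ]

@[simp] lemma liftZ_last {k n : ℕ} (ζ : Fin n → Fin k → ℝ) (Λ : ℝ) (j : Fin k) :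
    liftZ ζ Λ (Fin.last n) j.castSucc = 0 := by simp [liftZ]

lemma val_castSucc {k n : ℕ} (X Y : Fin n → ℝ) (ζ : Fin n → Fin k → ℝ) (Λ a b c : ℝ)
    (s : Fin (k + 1) → ℝ) (i : Fin n) :
    val (liftX X) (liftX Y) (liftZ ζ Λ) a b c s i.castSucc =
      val X Y ζ a b c (fun j => s j.castSucc) i - s (Fin.last k) * Λ ^ ((i : ℕ) + 1) := by
  unfold val
  rw [Fin.sum_univ_castSucc]
  simp
  ring

lemma val_last {k n : ℕ} (X Y : Fin n → ℝ) (ζ : Fin n → Fin k → ℝ) (Λ a b c : ℝ)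
    (s : Fin (k + 1) → ℝ) :
    val (liftX X) (liftX Y) (liftZ ζ Λ) a b c s (Fin.last n) =
      -c - s (Fin.last k) * Λ ^ (n + 1) := by
  unfold val
  rw [Fin.sum_univ_castSucc]
  simp

lemma size_succ {k : ℕ} (a b c : ℝ) (s : Fin (k + 1) → ℝ) :
    size a b c s = size a b c (fun j => s j.castSucc) + |s (Fin.last k)| := by
  unfold size
  rw [Fin.sum_univ_castSucc]
  ring

lemma sum_drop {n : ℕ} (μ f : Fin (n + 1) → ℝ) (a : Fin (n + 1))
    (ha : ∀ i, a < i → μ i = 0) (g : Fin n → ℝ) (hg : ∀ i, f (Fin.castSucc i) = g i) :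
    ∑ i : Fin n, (Function.update μ a 0) i.castSucc * g i = ∑ i, μ i * f i - μ a * f a := by
  have h1 : ∑ i, (Function.update μ a 0) i * f i =
      ∑ i : Fin n, (Function.update μ a 0) i.castSucc * g i := by
    rw [Fin.sum_univ_castSucc]
    have h2 : (Function.update μ a 0) (Fin.last n) = 0 := by
      by_cases h : Fin.last n = a
      · rw [← h]; simp
      · rw [Function.update_of_ne h]
        exact ha _ (lt_of_le_of_ne (Fin.le_last a) (Ne.symm h))
    rw [h2, zero_mul, add_zero]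
    apply Finset.sum_congr rfl
    intro i _
    rw [hg]
  rw [← h1]
  have h3 : ∀ i, μ i * f i = (Function.update μ a 0) i * f i + if i = a then μ a * f a else 0 := by
    intro i
    by_cases h : i = a
    · subst h; simp
    · rw [Function.update_of_ne h, if_neg h, add_zero]
  rw [Finset.sum_congr rfl (fun i _ => h3 i), Finset.sum_add_distrib]
  simp

lemma lift_sep {k n : ℕ} (K₀ : Set (ℝ × ℝ)) (X Y : Fin n → ℝ)
    (ζ : Fin n → Fin k → ℝ) (ρ B C Λ ρ' : ℝ) (hρ : 0 < ρ)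
    (hX : ∀ i, |X i| ≤ B) (hY : ∀ i, |Y i| ≤ B) (hζ : ∀ i j, |ζ i j| ≤ B) (hB : 0 ≤ B)
    (hC : ∀ x ∈ K₀, |x.1| ≤ C ∧ |x.2| ≤ C) (hC0 : 0 ≤ C)
    (hΛ4 : 4 ≤ Λ) (hΛ : 2 * (B + C + 1) / Λ ≤ ρ / 4) (hρ'1 : ρ' ≤ ρ / 4)
    (hρ'2 : ρ' ≤ 1 / Λ)
    (hsep : ∀ μ : Fin n → ℝ, 0 < ∑ i, |μ i| →
      (Finset.univ.filter (fun i => μ i ≠ 0)).card ≤ k + 2 →
      |∑ i, μ i| ≤ ρ * ∑ i, |μ i| → (∀ j, |∑ i, μ i * ζ i j| ≤ ρ * ∑ i, |μ i|) →
      ∀ x ∈ K₀, |∑ i, μ i * X i - (∑ i, |μ i|) * x.1| ≤ ρ * ∑ i, |μ i| →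
        |∑ i, μ i * Y i - (∑ i, |μ i|) * x.2| ≤ ρ * ∑ i, |μ i| → False) :
    ∀ μ : Fin (n + 1) → ℝ, 0 < ∑ i, |μ i| →
      (Finset.univ.filter (fun i => μ i ≠ 0)).card ≤ k + 1 + 2 →
      |∑ i, μ i| ≤ ρ' * ∑ i, |μ i| → (∀ j, |∑ i, μ i * liftZ ζ Λ i j| ≤ ρ' * ∑ i, |μ i|) →
      ∀ x ∈ K₀, |∑ i, μ i * liftX X i - (∑ i, |μ i|) * x.1| ≤ ρ' * ∑ i, |μ i| →
        |∑ i, μ i * liftX Y i - (∑ i, |μ i|) * x.2| ≤ ρ' * ∑ i, |μ i| → False := by
  classical
  intro μ hμ hcard hsum hz x hx h1 h2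
  have hΛ0 : 0 < Λ := by linarith
  set m' := ∑ i, |μ i| with hm'
  -- the largest index of the support
  have hne : (Finset.univ.filter (fun i => μ i ≠ 0)).Nonempty := by
    by_contra hcon
    rw [Finset.not_nonempty_iff_eq_empty, Finset.filter_eq_empty_iff] at hcon
    have : m' = 0 := by
      rw [hm']
      apply Finset.sum_eq_zero
      intro i hi
      have := hcon (Finset.mem_univ i)
      push Not at this
      rw [this, abs_zero]
    linarith
  obtain ⟨a, ha⟩ : ∃ a, a = (Finset.univ.filter (fun i => μ i ≠ 0)).max' hne := ⟨_, rfl⟩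
  have haS : μ a ≠ 0 := by
    have := Finset.max'_mem _ hne
    rw [← ha] at this
    exact (Finset.mem_filter.mp this).2
  have hgt : ∀ i, a < i → μ i = 0 := by
    intro i hi
    by_contra hcon
    have hi' : i ∈ Finset.univ.filter (fun i => μ i ≠ 0) :=
      Finset.mem_filter.mpr ⟨Finset.mem_univ i, hcon⟩
    have := Finset.le_max' _ i hi'
    rw [← ha] at this
    exact absurd hi (not_lt.mpr this)
  -- the last weight is small
  have hsmall : |μ a| ≤ 2 / Λ * m' := by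
    have hη : (1 : ℝ) ≤ Λ ^ ((a : ℕ) + 1) := one_le_pow₀ (by linarith)
    have hlast := hz (Fin.last k)
    simp only [liftZ_last_coord] at hlast
    have h3 : ∑ i, μ i * Λ ^ ((i : ℕ) + 1) = μ a * Λ ^ ((a : ℕ) + 1) +
        ∑ i ∈ Finset.univ.erase a, μ i * Λ ^ ((i : ℕ) + 1) :=
      (Finset.add_sum_erase _ _ (Finset.mem_univ a)).symm
    have h4 : |∑ i ∈ Finset.univ.erase a, μ i * Λ ^ ((i : ℕ) + 1)| ≤
        (Λ ^ ((a : ℕ) + 1) / Λ) * m' := by
      calc |∑ i ∈ Finset.univ.erase a, μ i * Λ ^ ((i : ℕ) + 1)|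
          ≤ ∑ i ∈ Finset.univ.erase a, |μ i * Λ ^ ((i : ℕ) + 1)| :=
            Finset.abs_sum_le_sum_abs _ _
        _ ≤ ∑ i ∈ Finset.univ.erase a, |μ i| * (Λ ^ ((a : ℕ) + 1) / Λ) := by
            apply Finset.sum_le_sum
            intro i hi
            have hia : i ≠ a := (Finset.mem_erase.mp hi).1
            rw [abs_mul, abs_of_pos (by positivity : 0 < Λ ^ ((i : ℕ) + 1))]
            rcases lt_or_gt_of_ne hia with h | h
            · apply mul_le_mul_of_nonneg_left _ (abs_nonneg _)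
              rw [le_div_iff₀ hΛ0, ← pow_succ]
              exact pow_le_pow_right₀ (by linarith) (by
                have : (i : ℕ) < a := h
                omega)
            · rw [hgt i h]; simp
        _ ≤ ∑ i, |μ i| * (Λ ^ ((a : ℕ) + 1) / Λ) := by
            apply Finset.sum_le_sum_of_subset_of_nonneg (Finset.erase_subset _ _)
            intro i _ _
            positivity
        _ = (Λ ^ ((a : ℕ) + 1) / Λ) * m' := by
            rw [← Finset.sum_mul, mul_comm]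
    have h5 : |μ a| * Λ ^ ((a : ℕ) + 1) ≤ ρ' * m' + (Λ ^ ((a : ℕ) + 1) / Λ) * m' := by
      have h6 : |μ a| * Λ ^ ((a : ℕ) + 1) = |μ a * Λ ^ ((a : ℕ) + 1)| := by
        rw [abs_mul, abs_of_pos (by positivity : 0 < Λ ^ ((a : ℕ) + 1))]
      have h7 : μ a * Λ ^ ((a : ℕ) + 1) = ∑ i, μ i * Λ ^ ((i : ℕ) + 1) -
          ∑ i ∈ Finset.univ.erase a, μ i * Λ ^ ((i : ℕ) + 1) := by linarith
      rw [h6, h7]
      calc _ ≤ |∑ i, μ i * Λ ^ ((i : ℕ) + 1)| +
            |∑ i ∈ Finset.univ.erase a, μ i * Λ ^ ((i : ℕ) + 1)| := abs_sub _ _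
        _ ≤ _ := add_le_add hlast h4
    have h8 : ρ' * m' ≤ (Λ ^ ((a : ℕ) + 1) / Λ) * m' := by
      apply mul_le_mul_of_nonneg_right _ hμ.le
      calc ρ' ≤ 1 / Λ := hρ'2
        _ ≤ Λ ^ ((a : ℕ) + 1) / Λ := by
          apply div_le_div_of_nonneg_right hη hΛ0.le
    have h9 : |μ a| * Λ ^ ((a : ℕ) + 1) ≤ (2 / Λ * m') * Λ ^ ((a : ℕ) + 1) := by
      calc _ ≤ _ := h5
        _ ≤ (Λ ^ ((a : ℕ) + 1) / Λ) * m' + (Λ ^ ((a : ℕ) + 1) / Λ) * m' := by linarith
        _ = _ := by field_simp; ring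
    exact le_of_mul_le_mul_right h9 (by positivity)
  set ν : Fin n → ℝ := fun i => (Function.update μ a 0) i.castSucc with hν
  have hm : ∑ i, |ν i| = m' - |μ a| := by
    have := sum_drop (fun i => |μ i|) (fun _ => 1) a (fun i hi => by rw [hgt i hi, abs_zero])
      (fun _ => 1) (fun _ => rfl)
    simp only [mul_one] at this
    rw [← this]
    apply Finset.sum_congr rfl
    intro i _
    simp only [hν]
    by_cases h : i.castSucc = a
    · rw [h]; simp
    · rw [Function.update_of_ne h, Function.update_of_ne h]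
  have h2Λ : 2 / Λ ≤ 1 / 2 := by
    rw [div_le_div_iff₀ hΛ0 (by norm_num)]
    linarith
  have hmhalf : m' / 2 ≤ ∑ i, |ν i| := by
    rw [hm]
    have : 2 / Λ * m' ≤ 1 / 2 * m' := mul_le_mul_of_nonneg_right h2Λ hμ.le
    linarith
  have hmle : ∑ i, |ν i| ≤ m' := by
    rw [hm]; linarith [abs_nonneg (μ a)]
  -- a general estimate
  have hgen : ∀ (f : Fin (n + 1) → ℝ) (g : Fin n → ℝ) (y : ℝ), (∀ i, f (Fin.castSucc i) = g i) →
      |f a| ≤ B + 1 → |y| ≤ C → |∑ i, μ i * f i - m' * y| ≤ ρ' * m' →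
      |∑ i, ν i * g i - (∑ i, |ν i|) * y| ≤ ρ * ∑ i, |ν i| := by
    intro f g y hfg hfa hy hb
    have e1 : ∑ i, ν i * g i = ∑ i, μ i * f i - μ a * f a := sum_drop μ f a hgt g hfg
    have e2 : ∑ i, ν i * g i - (∑ i, |ν i|) * y =
        (∑ i, μ i * f i - m' * y) + (|μ a| * y - μ a * f a) := by
      rw [e1, hm]; ring
    rw [e2]
    have e3 : |(|μ a| * y - μ a * f a)| ≤ |μ a| * (B + C + 1) := by
      calc |(|μ a| * y - μ a * f a)| ≤ |(|μ a| * y)| + |μ a * f a| := abs_sub _ _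
        _ = |μ a| * |y| + |μ a| * |f a| := by rw [abs_mul, abs_mul, abs_abs]
        _ ≤ |μ a| * C + |μ a| * (B + 1) :=
            add_le_add (mul_le_mul_of_nonneg_left hy (abs_nonneg _))
              (mul_le_mul_of_nonneg_left hfa (abs_nonneg _))
        _ = |μ a| * (B + C + 1) := by ring
    have e4 : |μ a| * (B + C + 1) ≤ ρ / 4 * m' := by
      calc |μ a| * (B + C + 1) ≤ (2 / Λ * m') * (B + C + 1) :=
            mul_le_mul_of_nonneg_right hsmall (by linarith)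
        _ = (2 * (B + C + 1) / Λ) * m' := by ring
        _ ≤ ρ / 4 * m' := mul_le_mul_of_nonneg_right hΛ hμ.le
    calc _ ≤ |∑ i, μ i * f i - m' * y| + |(|μ a| * y - μ a * f a)| := abs_add_le _ _
      _ ≤ ρ' * m' + ρ / 4 * m' := add_le_add hb (e3.trans e4)
      _ ≤ ρ / 4 * m' + ρ / 4 * m' := by
          have := mul_le_mul_of_nonneg_right hρ'1 hμ.le
          linarith
      _ = ρ * (m' / 2) := by ring
      _ ≤ ρ * ∑ i, |ν i| := mul_le_mul_of_nonneg_left hmhalf hρ.le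
  have hXa : ∀ W : Fin n → ℝ, (∀ i, |W i| ≤ B) → |liftX W a| ≤ B + 1 := by
    intro W hW
    refine Fin.lastCases ?_ (fun i => ?_) a
    · simp; linarith
    · rw [liftX_castSucc]; linarith [hW i]
  have hZa : ∀ j : Fin k, |liftZ ζ Λ a j.castSucc| ≤ B + 1 := by
    intro j
    refine Fin.lastCases ?_ (fun i => ?_) a
    · simp; linarith
    · rw [liftZ_castSucc]; linarith [hζ i j]
  apply hsep ν (by linarith) _ _ _ x hx
  · exact hgen (liftX X) X x.1 (fun i => liftX_castSucc X i) (hXa X hX) (hC x hx).1 h1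
  · exact hgen (liftX Y) Y x.2 (fun i => liftX_castSucc Y i) (hXa Y hY) (hC x hx).2 h2
  · -- the support
    have hsub : (Finset.univ.filter (fun i => ν i ≠ 0)).map Fin.castSuccEmb ⊆
        (Finset.univ.filter (fun i => μ i ≠ 0)).erase a := by
      intro i hi
      rw [Finset.mem_map] at hi
      obtain ⟨i', hi', rfl⟩ := hi
      have hν' := (Finset.mem_filter.mp hi').2
      simp only [hν] at hν'
      rw [Finset.mem_erase]
      have hia : i'.castSucc ≠ a := by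
        intro h
        rw [h] at hν'
        simp at hν'
      rw [Function.update_of_ne hia] at hν'
      exact ⟨hia, Finset.mem_filter.mpr ⟨Finset.mem_univ _, hν'⟩⟩
    have h3 := Finset.card_le_card hsub
    have haM : a ∈ Finset.univ.filter (fun i => μ i ≠ 0) :=
      Finset.mem_filter.mpr ⟨Finset.mem_univ _, haS⟩
    rw [Finset.card_map, Finset.card_erase_of_mem haM] at h3
    omega
  · have := hgen (fun _ => 1) (fun _ => 1) 0 (fun _ => rfl) (by rw [abs_one]; linarith)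
      (by rw [abs_zero]; exact hC0) (by simpa using hsum)
    simpa using this
  · intro j
    have := hgen (fun i => liftZ ζ Λ i j.castSucc) (fun i => ζ i j) 0
      (fun i => liftZ_castSucc ζ Λ i j) (hZa j)
      (by rw [abs_zero]; exact hC0) (by simpa using hz j.castSucc)
    simpa using this

lemma lift_non {k n : ℕ} (h : ℝ → ℝ → ℝ) (X Y : Fin n → ℝ)
    (ζ : Fin n → Fin k → ℝ) (ρ C Λ ρ' : ℝ) (hρ : 0 < ρ) (hC0 : 0 ≤ C)
    (hh : ∀ a b, h a b ≤ C * (|a| + |b|))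
    (hΛ4 : 4 ≤ Λ) (hΛ : 4 * (C + 2) / Λ ≤ ρ / 2) (hρ'1 : ρ' ≤ ρ / 8)
    (hρ'2 : ρ' ≤ 1)
    (hnon : ∀ (a b c : ℝ) (s : Fin k → ℝ),
      (∀ i, |val X Y ζ a b c s i| ≤ h a b + ρ * size a b c s) → size a b c s = 0) :
    ∀ (a b c : ℝ) (s : Fin (k + 1) → ℝ),
      (∀ i, |val (liftX X) (liftX Y) (liftZ ζ Λ) a b c s i| ≤ h a b + ρ' * size a b c s) →
        size a b c s = 0 := by
  intro a b c s hall
  have hΛ0 : 0 < Λ := by linarith
  set s₀ : Fin k → ℝ := fun j => s j.castSucc with hs₀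
  set N := size a b c s₀ with hN
  set σ := s (Fin.last k) with hσ
  have hN0 : 0 ≤ N := size_nonneg _ _ _ _
  rw [size_succ] at hall ⊢
  have hpow : (4 : ℝ) ≤ Λ ^ (n + 1) := by
    calc (4 : ℝ) ≤ Λ := hΛ4
      _ = Λ ^ 1 := (pow_one _).symm
      _ ≤ Λ ^ (n + 1) := pow_le_pow_right₀ (by linarith) (by omega)
  have hab : |a| + |b| ≤ N := by
    rw [hN]; unfold size
    have : 0 ≤ ∑ j, |s₀ j| := Finset.sum_nonneg (fun j _ => abs_nonneg _)
    linarith [abs_nonneg c]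
  have hc : |c| ≤ N := by
    rw [hN]; unfold size
    have : 0 ≤ ∑ j, |s₀ j| := Finset.sum_nonneg (fun j _ => abs_nonneg _)
    linarith [abs_nonneg a, abs_nonneg b]
  have hlast := hall (Fin.last n)
  rw [val_last] at hlast
  have h1 : |σ| * Λ ^ (n + 1) ≤ (C + 2) * N + ρ' * |σ| := by
    have e1 : σ * Λ ^ (n + 1) = -(-c - σ * Λ ^ (n + 1)) - c := by ring
    have e2 : |σ| * Λ ^ (n + 1) = |σ * Λ ^ (n + 1)| := by
      rw [abs_mul, abs_of_pos (by positivity : 0 < Λ ^ (n + 1))]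
    rw [e2, e1]
    calc |-(-c - σ * Λ ^ (n + 1)) - c| ≤ |-(-c - σ * Λ ^ (n + 1))| + |c| := abs_sub _ _
      _ = |-c - σ * Λ ^ (n + 1)| + |c| := by rw [abs_neg]
      _ ≤ (h a b + ρ' * (N + |σ|)) + N := add_le_add hlast hc
      _ ≤ (C * N + ρ' * (N + |σ|)) + N := by
          have := hh a b
          have h3 := mul_le_mul_of_nonneg_left hab hC0
          linarith
      _ ≤ (C + 2) * N + ρ' * |σ| := by nlinarith
  have hσle : |σ| * Λ ^ (n + 1) ≤ 2 * (C + 2) * N := by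
    have h3 : ρ' * |σ| ≤ |σ| * Λ ^ (n + 1) / 2 := by
      have h4 : ρ' * |σ| ≤ 1 * |σ| := mul_le_mul_of_nonneg_right hρ'2 (abs_nonneg _)
      have h5 : |σ| * 2 ≤ |σ| * (Λ ^ (n + 1)) / 1 := by
        rw [div_one]
        apply mul_le_mul_of_nonneg_left _ (abs_nonneg _)
        linarith
      linarith
    linarith
  have hσN : |σ| ≤ 4 * (C + 2) / Λ * N := by
    have h3 : |σ| * Λ ≤ |σ| * Λ ^ (n + 1) := by
      apply mul_le_mul_of_nonneg_left _ (abs_nonneg _)
      calc Λ = Λ ^ 1 := (pow_one _).symm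
        _ ≤ Λ ^ (n + 1) := pow_le_pow_right₀ (by linarith) (by omega)
    have h4 : |σ| * Λ ≤ 4 * (C + 2) * N := by
      have : 0 ≤ (C + 2) * N := by positivity
      linarith
    calc |σ| = |σ| * Λ / Λ := by field_simp
      _ ≤ 4 * (C + 2) * N / Λ := div_le_div_of_nonneg_right h4 hΛ0.le
      _ = 4 * (C + 2) / Λ * N := by ring
  have hN' : N = 0 := by
    apply hnon a b c s₀
    intro i
    have hi := hall i.castSucc
    rw [val_castSucc] at hi
    have h3 : |σ| * Λ ^ ((i : ℕ) + 1) ≤ 2 * (C + 2) / Λ * N := by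
      have h4 : |σ| * Λ ^ ((i : ℕ) + 1) * Λ ≤ 2 * (C + 2) * N := by
        calc |σ| * Λ ^ ((i : ℕ) + 1) * Λ = |σ| * Λ ^ ((i : ℕ) + 1 + 1) := by ring
          _ ≤ |σ| * Λ ^ (n + 1) := by
              apply mul_le_mul_of_nonneg_left _ (abs_nonneg _)
              exact pow_le_pow_right₀ (by linarith) (by have := i.isLt; omega)
          _ ≤ _ := hσle
      calc |σ| * Λ ^ ((i : ℕ) + 1) = |σ| * Λ ^ ((i : ℕ) + 1) * Λ / Λ := by field_simp
        _ ≤ 2 * (C + 2) * N / Λ := div_le_div_of_nonneg_right h4 hΛ0.le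
        _ = 2 * (C + 2) / Λ * N := by ring
    have h4 : |val X Y ζ a b c s₀ i| ≤
        |val X Y ζ a b c s₀ i - σ * Λ ^ ((i : ℕ) + 1)| + |σ| * Λ ^ ((i : ℕ) + 1) := by
      have e1 : val X Y ζ a b c s₀ i =
        (val X Y ζ a b c s₀ i - σ * Λ ^ ((i : ℕ) + 1)) + σ * Λ ^ ((i : ℕ) + 1) := by ring
      have e2 : |σ| * Λ ^ ((i : ℕ) + 1) = |σ * Λ ^ ((i : ℕ) + 1)| := by
        rw [abs_mul, abs_of_pos (by positivity : 0 < Λ ^ ((i : ℕ) + 1))]
      rw [e2]
      conv_lhs => rw [e1]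
      exact abs_add_le _ _
    have h5 : 4 * (C + 2) / Λ * N ≤ ρ / 2 * N := mul_le_mul_of_nonneg_right hΛ hN0
    have h6 : 2 * (C + 2) / Λ * N = (4 * (C + 2) / Λ * N) / 2 := by ring
    have h7 : ρ' * N ≤ ρ / 8 * N := mul_le_mul_of_nonneg_right hρ'1 hN0
    have h8 : ρ' * |σ| ≤ 1 * |σ| := mul_le_mul_of_nonneg_right hρ'2 (abs_nonneg _)
    have h9 : 0 ≤ ρ * N := by positivity
    have h10 : ρ' * |σ| ≤ ρ / 8 * |σ| := mul_le_mul_of_nonneg_right hρ'1 (abs_nonneg _)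
    have h11 : ρ' * (N + |σ|) = ρ' * N + ρ' * |σ| := by ring
    have h12 : ρ' * |σ| ≤ ρ / 2 * N := by linarith
    linarith
  rw [hN', mul_zero] at hσN
  have hσ0 := abs_nonneg σ
  change N + |σ| = 0
  linarith

lemma exists_bound {ι : Type} [Fintype ι] (f : ι → ℝ) : ∃ B : ℝ, 0 ≤ B ∧ ∀ i, |f i| ≤ B := by
  refine ⟨∑ i, |f i|, Finset.sum_nonneg (fun i _ => abs_nonneg _), fun i => ?_⟩
  exact Finset.single_le_sum (f := fun i => |f i|) (fun j _ => abs_nonneg _) (Finset.mem_univ i)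

lemma lift {k n r : ℕ} {K₀ : Set (ℝ × ℝ)} {h : ℝ → ℝ → ℝ} {X Y : Fin n → ℝ}
    {ζ : Fin n → Fin k → ℝ} {ρ C : ℝ} (hC : ∀ x ∈ K₀, |x.1| ≤ C ∧ |x.2| ≤ C) (hC0 : 0 ≤ C)
    (hh : ∀ a b, h a b ≤ C * (|a| + |b|)) (hconf : Conf k n r K₀ h X Y ζ ρ) :
    ∃ (X' Y' : Fin (n + 1) → ℝ) (ζ' : Fin (n + 1) → Fin (k + 1) → ℝ) (ρ' : ℝ),
      Conf (k + 1) (n + 1) r K₀ h X' Y' ζ' ρ' := by
  classical
  obtain ⟨B1, hB1, hX⟩ := exists_bound X
  obtain ⟨B2, hB2, hY⟩ := exists_bound Y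
  obtain ⟨B3, hB3, hZ⟩ := exists_bound (fun p : Fin n × Fin k => ζ p.1 p.2)
  set B := B1 + B2 + B3 with hB
  have hρ := hconf.pos
  -- choose coefficients for all subfamilies
  have htra := hconf.tra
  choose! a b c s hpos hval using htra
  have hgap : ∀ S : Finset (Fin n), S.card ≤ r → ∀ i ∈ S,
      ∀ᶠ Λ : ℝ in Filter.atTop, |c S| / Λ < h (a S) (b S) - |val X Y ζ (a S) (b S) (c S) (s S) i| := by
    intro S hS i hi
    have h1 : Filter.Tendsto (fun Λ : ℝ => |c S| / Λ) Filter.atTop (nhds 0) :=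
      Filter.Tendsto.const_div_atTop Filter.tendsto_id _
    have h2 := hval S hS i hi
    exact h1.eventually (gt_mem_nhds (by linarith))
  have hgap' : ∀ᶠ Λ : ℝ in Filter.atTop, ∀ S : Finset (Fin n), S.card ≤ r → ∀ i ∈ S,
      |c S| / Λ < h (a S) (b S) - |val X Y ζ (a S) (b S) (c S) (s S) i| := by
    rw [Filter.eventually_all]
    intro S
    by_cases hS : S.card ≤ r
    · have : ∀ᶠ Λ : ℝ in Filter.atTop, ∀ i ∈ S,
        |c S| / Λ < h (a S) (b S) - |val X Y ζ (a S) (b S) (c S) (s S) i| :=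
          (Filter.eventually_all_finset S).mpr (fun i hi => hgap S hS i hi)
      exact this.mono (fun Λ hΛ _ => hΛ)
    · exact Filter.Eventually.of_forall (fun Λ hS' => absurd hS' hS)
  have hsm : ∀ (D ε : ℝ), 0 < ε → ∀ᶠ Λ : ℝ in Filter.atTop, D / Λ ≤ ε := by
    intro D ε hε
    have h1 : Filter.Tendsto (fun Λ : ℝ => D / Λ) Filter.atTop (nhds 0) :=
      Filter.Tendsto.const_div_atTop Filter.tendsto_id _
    exact (h1.eventually (gt_mem_nhds hε)).mono (fun Λ h => le_of_lt h)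
  obtain ⟨Λ, hΛgap, hΛ4, hΛ1, hΛ2⟩ := (hgap'.and ((Filter.eventually_ge_atTop (4 : ℝ)).and
    ((hsm (2 * (B + C + 1)) (ρ / 4) (by linarith)).and
      (hsm (4 * (C + 2)) (ρ / 2) (by linarith))))).exists
  have hΛ0 : 0 < Λ := by linarith
  set ρ' := min (min (ρ / 8) (1 / Λ)) 1 with hρ'
  have hρ'0 : 0 < ρ' := by
    apply lt_min (lt_min (by linarith) (by positivity)) one_pos
  have hρ'1 : ρ' ≤ ρ / 8 := (min_le_left _ _).trans (min_le_left _ _)
  have hρ'2 : ρ' ≤ 1 / Λ := (min_le_left _ _).trans (min_le_right _ _)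
  have hρ'3 : ρ' ≤ 1 := min_le_right _ _
  refine ⟨liftX X, liftX Y, liftZ ζ Λ, ρ', hρ'0, ?_, ?_, ?_⟩
  · exact lift_sep K₀ X Y ζ ρ B C Λ ρ' hρ (fun i => (hX i).trans (by linarith))
      (fun i => (hY i).trans (by linarith)) (fun i j => (hZ (i, j)).trans (by linarith))
      (by linarith) hC hC0 hΛ4 hΛ1 (by linarith) hρ'2 hconf.sep
  · exact lift_non h X Y ζ ρ C Λ ρ' hρ hC0 hh hΛ4 hΛ2 hρ'1 hρ'3 hconf.non
  · intro S hS
    set S₀ : Finset (Fin n) := Finset.univ.filter (fun i => i.castSucc ∈ S) with hS₀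
    have hS₀c : S₀.card ≤ r := by
      have : S₀.map Fin.castSuccEmb ⊆ S := by
        intro i hi
        rw [Finset.mem_map] at hi
        obtain ⟨i', hi', rfl⟩ := hi
        exact (Finset.mem_filter.mp hi').2
      have h1 := Finset.card_le_card this
      rw [Finset.card_map] at h1
      omega
    refine ⟨a S₀, b S₀, c S₀,
      Fin.snoc (α := fun _ => ℝ) (s S₀) (-(c S₀) / Λ ^ (n + 1)), hpos S₀ hS₀c, ?_⟩
    intro i
    refine Fin.lastCases ?_ (fun i => ?_) i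
    · intro _
      rw [val_last]
      have : -(c S₀) - (Fin.snoc (α := fun _ => ℝ) (s S₀) (-(c S₀) / Λ ^ (n + 1)) : Fin (k + 1) → ℝ)
          (Fin.last k) * Λ ^ (n + 1) = 0 := by
        rw [Fin.snoc_last]
        field_simp
        ring
      rw [this, abs_zero]
      exact hpos S₀ hS₀c
    · intro hi
      have hi₀ : i ∈ S₀ := Finset.mem_filter.mpr ⟨Finset.mem_univ _, hi⟩
      rw [val_castSucc]
      simp only [Fin.snoc_castSucc, Fin.snoc_last]
      have h1 := hΛgap S₀ hS₀c i hi₀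
      have h2 : |(-(c S₀) / Λ ^ (n + 1)) * Λ ^ ((i : ℕ) + 1)| ≤ |c S₀| / Λ := by
        rw [abs_mul, abs_div, abs_neg, abs_of_pos (by positivity : 0 < Λ ^ (n + 1)),
          abs_of_pos (by positivity : 0 < Λ ^ ((i : ℕ) + 1)), div_mul_eq_mul_div,
          div_le_div_iff₀ (by positivity) hΛ0, mul_assoc]
        apply mul_le_mul_of_nonneg_left _ (abs_nonneg _)
        rw [← pow_succ]
        exact pow_le_pow_right₀ (by linarith) (by have := i.isLt; omega)
      calc _ ≤ |val X Y ζ (a S₀) (b S₀) (c S₀) (s S₀) i| +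
            |(-(c S₀) / Λ ^ (n + 1)) * Λ ^ ((i : ℕ) + 1)| := abs_sub _ _
        _ < h (a S₀) (b S₀) := by linarith

/-! ### Robustness from exactness by compactness -/

lemma robust_sep {k n : ℕ} {K₀ : Set (ℝ × ℝ)} {X Y : Fin n → ℝ}
    {ζ : Fin n → Fin k → ℝ} (hK : IsCompact K₀)
    (hsep : ∀ μ : Fin n → ℝ, 0 < ∑ i, |μ i| →
      (Finset.univ.filter (fun i => μ i ≠ 0)).card ≤ k + 2 →
      ∑ i, μ i = 0 → (∀ j, ∑ i, μ i * ζ i j = 0) →
      ∀ x ∈ K₀, ∑ i, μ i * X i = (∑ i, |μ i|) * x.1 →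
        ∑ i, μ i * Y i = (∑ i, |μ i|) * x.2 → False) :
    ∃ ρ : ℝ, 0 < ρ ∧ ∀ μ : Fin n → ℝ, 0 < ∑ i, |μ i| →
      (Finset.univ.filter (fun i => μ i ≠ 0)).card ≤ k + 2 →
      |∑ i, μ i| ≤ ρ * ∑ i, |μ i| → (∀ j, |∑ i, μ i * ζ i j| ≤ ρ * ∑ i, |μ i|) →
      ∀ x ∈ K₀, |∑ i, μ i * X i - (∑ i, |μ i|) * x.1| ≤ ρ * ∑ i, |μ i| →
        |∑ i, μ i * Y i - (∑ i, |μ i|) * x.2| ≤ ρ * ∑ i, |μ i| → False := by
  classical
  set Cs : Finset (Fin n) → Set (Fin n → ℝ) :=
    fun D => {μ | ∑ i, |μ i| = 1 ∧ ∀ i, i ∉ D → μ i = 0} with hCs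
  have hCc : ∀ D, IsCompact (Cs D) := by
    intro D
    apply Metric.isCompact_of_isClosed_isBounded
    · apply IsClosed.and
      · exact isClosed_eq (by fun_prop) continuous_const
      · simp only [Set.ofPred_forall]
        apply isClosed_iInter
        intro i
        apply isClosed_iInter
        intro _
        exact isClosed_eq (by fun_prop) continuous_const
    · rw [Metric.isBounded_iff_subset_closedBall 0]
      refine ⟨1, fun μ hμ => ?_⟩
      rw [mem_closedBall_zero_iff, pi_norm_le_iff_of_nonneg zero_le_one]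
      intro i
      rw [Real.norm_eq_abs, ← hμ.1]
      exact Finset.single_le_sum (f := fun i => |μ i|) (fun j _ => abs_nonneg _)
        (Finset.mem_univ i)
  set T : Set (Fin n → ℝ) := ⋃ D ∈ (Finset.univ.filter
    (fun D : Finset (Fin n) => D.card ≤ k + 2)), Cs D with hT
  have hTc : IsCompact T := by
    rw [hT]
    exact Finset.isCompact_biUnion _ (fun D _ => hCc D)
  have hTK : IsCompact (T ×ˢ K₀) := hTc.prod hK
  set F : (Fin n → ℝ) × (ℝ × ℝ) → ℝ := fun p => |∑ i, p.1 i| + ∑ j, |∑ i, p.1 i * ζ i j| +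
    |∑ i, p.1 i * X i - p.2.1| + |∑ i, p.1 i * Y i - p.2.2| with hF
  have hFc : Continuous F := by
    rw [hF]
    fun_prop
  have hFpos : ∀ p ∈ T ×ˢ K₀, 0 < F p := by
    rintro ⟨μ, x⟩ ⟨hμ, hx⟩
    simp only at hμ hx
    rw [hT] at hμ
    simp only [Set.mem_iUnion] at hμ
    obtain ⟨D, hD, hμ1, hμ2⟩ := hμ
    have hDc := (Finset.mem_filter.mp hD).2
    have hcard : (Finset.univ.filter (fun i => μ i ≠ 0)).card ≤ k + 2 := by
      refine (Finset.card_le_card ?_).trans hDc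
      intro i hi
      by_contra hiD
      exact (Finset.mem_filter.mp hi).2 (hμ2 i hiD)
    by_contra hcon
    push Not at hcon
    simp only [hF] at hcon
    have p1 : 0 ≤ |∑ i, μ i| := abs_nonneg _
    have p2 : 0 ≤ ∑ j, |∑ i, μ i * ζ i j| := Finset.sum_nonneg (fun j _ => abs_nonneg _)
    have p3 : 0 ≤ |∑ i, μ i * X i - x.1| := abs_nonneg _
    have p4 : 0 ≤ |∑ i, μ i * Y i - x.2| := abs_nonneg _
    have q1 : |∑ i, μ i| = 0 := by linarith
    have q2 : ∑ j, |∑ i, μ i * ζ i j| = 0 := by linarith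
    have q3 : |∑ i, μ i * X i - x.1| = 0 := by linarith
    have q4 : |∑ i, μ i * Y i - x.2| = 0 := by linarith
    rw [abs_eq_zero] at q1 q3 q4
    rw [Finset.sum_eq_zero_iff_of_nonneg (fun j _ => abs_nonneg _)] at q2
    apply hsep μ (by rw [hμ1]; exact one_pos) hcard q1
      (fun j => abs_eq_zero.mp (q2 j (Finset.mem_univ j))) x hx
    · rw [hμ1]; linarith
    · rw [hμ1]; linarith
  obtain ⟨g, hg0, hg⟩ : ∃ g : ℝ, 0 < g ∧ ∀ p ∈ T ×ˢ K₀, g ≤ F p := by
    rcases (T ×ˢ K₀).eq_empty_or_nonempty with he | hne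
    · exact ⟨1, one_pos, fun p hp => by rw [he] at hp; exact absurd hp (Set.notMem_empty p)⟩
    · obtain ⟨p₀, hp₀, hmin⟩ := hTK.exists_isMinOn hne hFc.continuousOn
      exact ⟨F p₀, hFpos p₀ hp₀, fun p hp => hmin hp⟩
  refine ⟨g / (k + 4), by positivity, ?_⟩
  intro μ hμ hcard h1 h2 x hx h3 h4
  set m := ∑ i, |μ i| with hm
  set ν : Fin n → ℝ := fun i => μ i / m with hν
  have hνm : ∑ i, |ν i| = 1 := by
    simp only [hν, abs_div, abs_of_pos hμ]
    rw [← Finset.sum_div, ← hm, div_self hμ.ne']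
  have hνT : ν ∈ T := by
    rw [hT]
    simp only [Set.mem_iUnion]
    refine ⟨Finset.univ.filter (fun i => μ i ≠ 0),
      Finset.mem_filter.mpr ⟨Finset.mem_univ _, hcard⟩, hνm, ?_⟩
    intro i hi
    have : μ i = 0 := by
      by_contra hne
      exact hi (Finset.mem_filter.mpr ⟨Finset.mem_univ _, hne⟩)
    simp only [hν, this, zero_div]
  have hgF := hg (ν, x) ⟨hνT, hx⟩
  simp only [hF] at hgF
  have hdiv : ∀ (A y : ℝ), |A - m * y| ≤ g / (k + 4) * m → |A / m - y| ≤ g / (k + 4) := by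
    intro A y hA
    have : A / m - y = (A - m * y) / m := by field_simp
    rw [this, abs_div, abs_of_pos hμ, div_le_iff₀ hμ]
    exact hA
  have hsumdiv : ∀ f : Fin n → ℝ, ∑ i, ν i * f i = (∑ i, μ i * f i) / m := by
    intro f
    rw [Finset.sum_div]
    apply Finset.sum_congr rfl
    intro i _
    simp only [hν]
    ring
  have e1 : |∑ i, ν i| ≤ g / (k + 4) := by
    have := hsumdiv (fun _ => 1)
    simp only [mul_one] at this
    rw [this]
    have := hdiv (∑ i, μ i) 0 (by simpa using h1)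
    simpa using this
  have e2 : ∀ j, |∑ i, ν i * ζ i j| ≤ g / (k + 4) := by
    intro j
    rw [hsumdiv]
    have := hdiv (∑ i, μ i * ζ i j) 0 (by simpa using h2 j)
    simpa using this
  have e3 : |∑ i, ν i * X i - x.1| ≤ g / (k + 4) := by
    rw [hsumdiv]
    exact hdiv _ _ h3
  have e4 : |∑ i, ν i * Y i - x.2| ≤ g / (k + 4) := by
    rw [hsumdiv]
    exact hdiv _ _ h4
  have e5 : ∑ j, |∑ i, ν i * ζ i j| ≤ k * (g / (k + 4)) := by
    calc ∑ j, |∑ i, ν i * ζ i j| ≤ ∑ _j : Fin k, g / (k + 4) :=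
          Finset.sum_le_sum (fun j _ => e2 j)
      _ = k * (g / (k + 4)) := by simp
  have e6 : (k + 3) * (g / (k + 4)) < g := by
    rw [← mul_div_assoc, div_lt_iff₀ (by positivity)]
    nlinarith
  nlinarith

lemma robust_non {k n : ℕ} {h : ℝ → ℝ → ℝ} {X Y : Fin n → ℝ}
    {ζ : Fin n → Fin k → ℝ} (hcont : Continuous (fun p : ℝ × ℝ => h p.1 p.2))
    (hhom : ∀ t a b, 0 < t → h (a / t) (b / t) = h a b / t)
    (hnon : ∀ (a b c : ℝ) (s : Fin k → ℝ),
      (∀ i, |val X Y ζ a b c s i| ≤ h a b) → size a b c s = 0) :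
    ∃ ρ : ℝ, 0 < ρ ∧ ∀ (a b c : ℝ) (s : Fin k → ℝ),
      (∀ i, |val X Y ζ a b c s i| ≤ h a b + ρ * size a b c s) → size a b c s = 0 := by
  classical
  set V := ℝ × ℝ × ℝ × (Fin k → ℝ)
  set Sph : Set (ℝ × ℝ × ℝ × (Fin k → ℝ)) := {v | size v.1 v.2.1 v.2.2.1 v.2.2.2 = 1} with hSph
  have hsc : Continuous (fun v : ℝ × ℝ × ℝ × (Fin k → ℝ) => size v.1 v.2.1 v.2.2.1 v.2.2.2) := by
    unfold size
    fun_prop
  have hSc : IsCompact Sph := by
    apply Metric.isCompact_of_isClosed_isBounded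
    · exact isClosed_eq hsc continuous_const
    · rw [Metric.isBounded_iff_subset_closedBall 0]
      refine ⟨1, fun v hv => ?_⟩
      rw [mem_closedBall_zero_iff]
      have hv' : |v.1| + |v.2.1| + |v.2.2.1| + ∑ j, |v.2.2.2 j| = 1 := hv
      have hs0 : 0 ≤ ∑ j, |v.2.2.2 j| := Finset.sum_nonneg (fun j _ => abs_nonneg _)
      have a1 := abs_nonneg v.1
      have a2 := abs_nonneg v.2.1
      have a3 := abs_nonneg v.2.2.1
      rw [Prod.norm_def, Prod.norm_def, Prod.norm_def]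
      apply max_le
      · rw [Real.norm_eq_abs]; linarith
      · apply max_le
        · rw [Real.norm_eq_abs]; linarith
        · apply max_le
          · rw [Real.norm_eq_abs]; linarith
          · rw [pi_norm_le_iff_of_nonneg zero_le_one]
            intro j
            rw [Real.norm_eq_abs]
            have := Finset.single_le_sum (f := fun j => |v.2.2.2 j|) (fun j _ => abs_nonneg _)
              (Finset.mem_univ j)
            linarith
  set G : ℝ × ℝ × ℝ × (Fin k → ℝ) → ℝ := fun v =>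
    ∑ i, max 0 (|val X Y ζ v.1 v.2.1 v.2.2.1 v.2.2.2 i| - h v.1 v.2.1) with hG
  have hh : Continuous (fun v : ℝ × ℝ × ℝ × (Fin k → ℝ) => h v.1 v.2.1) :=
    hcont.comp (continuous_fst.prodMk (continuous_fst.comp continuous_snd))
  have hGc : Continuous G := by
    rw [hG]
    apply continuous_finsetSum
    intro i _
    apply continuous_const.max
    apply Continuous.sub _ hh
    unfold val
    fun_prop
  have hGpos : ∀ v ∈ Sph, 0 < G v := by
    intro v hv
    by_contra hcon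
    push Not at hcon
    have hnn : ∀ i ∈ (Finset.univ : Finset (Fin n)),
        0 ≤ max 0 (|val X Y ζ v.1 v.2.1 v.2.2.1 v.2.2.2 i| - h v.1 v.2.1) :=
      fun i _ => le_max_left _ _
    have h0 : G v = 0 := le_antisymm hcon (Finset.sum_nonneg hnn)
    simp only [hG] at h0
    rw [Finset.sum_eq_zero_iff_of_nonneg hnn] at h0
    have := hnon v.1 v.2.1 v.2.2.1 v.2.2.2 (fun i => by
      have h1 := h0 i (Finset.mem_univ i)
      have h2 := le_max_right 0 (|val X Y ζ v.1 v.2.1 v.2.2.1 v.2.2.2 i| - h v.1 v.2.1)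
      rw [h1] at h2
      linarith)
    have hv' : size v.1 v.2.1 v.2.2.1 v.2.2.2 = 1 := hv
    rw [hv'] at this
    exact one_ne_zero this
  obtain ⟨g, hg0, hg⟩ : ∃ g : ℝ, 0 < g ∧ ∀ v ∈ Sph, g ≤ G v := by
    rcases Sph.eq_empty_or_nonempty with he | hne
    · exact ⟨1, one_pos, fun p hp => by rw [he] at hp; exact absurd hp (Set.notMem_empty p)⟩
    · obtain ⟨p₀, hp₀, hmin⟩ := hSc.exists_isMinOn hne hGc.continuousOn
      exact ⟨G p₀, hGpos p₀ hp₀, fun p hp => hmin hp⟩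
  refine ⟨g / (n + 1), by positivity, ?_⟩
  intro a b c s hall
  by_contra hne
  have hN0 := size_nonneg a b c s
  have hN : 0 < size a b c s := lt_of_le_of_ne hN0 (Ne.symm hne)
  set N := size a b c s with hNdef
  have hsz : size (a / N) (b / N) (c / N) (fun j => s j / N) = 1 := by
    unfold size
    simp only [abs_div, abs_of_pos hN]
    rw [← Finset.sum_div, ← add_div, ← add_div, ← add_div]
    have : |a| + |b| + |c| + ∑ j, |s j| = N := rfl
    rw [this, div_self hN.ne']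
  have h1 := hg (a / N, b / N, c / N, fun j => s j / N) hsz
  simp only [hG] at h1
  have hval : ∀ i, val X Y ζ (a / N) (b / N) (c / N) (fun j => s j / N) i =
      val X Y ζ a b c s i / N := by
    intro i
    unfold val
    rw [sub_div, sub_div, add_div, Finset.sum_div]
    congr 1
    · ring
    · apply Finset.sum_congr rfl
      intro j _
      ring
  have h2 : ∑ i, max 0 (|val X Y ζ (a / N) (b / N) (c / N) (fun j => s j / N) i| -
      h (a / N) (b / N)) ≤ ∑ _i : Fin n, g / (n + 1) := by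
    apply Finset.sum_le_sum
    intro i _
    apply max_le (by positivity)
    rw [hval, hhom _ _ _ hN, abs_div, abs_of_pos hN, ← sub_div, div_le_iff₀ hN]
    linarith [hall i]
  have h3 : ∑ _i : Fin n, g / (n + 1) < g := by
    simp only [Finset.sum_const, Finset.card_univ, Fintype.card_fin, nsmul_eq_mul]
    rw [← mul_div_assoc, div_lt_iff₀ (by positivity)]
    nlinarith
  linarith

/-! ### The base configuration in dimension three -/

/-- The values of the functional `(a, b)` at the points `(1 - δ β², β)`, `β = 1, ..., M`. -/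
def fw (M : ℕ) (δ a b : ℝ) : Fin M → ℝ :=
  fun β => a * (1 - δ * ((β : ℕ) + 1 : ℝ) ^ 2) + b * ((β : ℕ) + 1 : ℝ)

/-- support function of the planar body -/
noncomputable def hw (M : ℕ) (δ q a b : ℝ) : ℝ := q * ‖fw M δ a b‖

/-- the planar body -/
def body (M : ℕ) (δ q : ℝ) : Set (ℝ × ℝ) := {x | ∀ a b, a * x.1 + b * x.2 ≤ hw M δ q a b}

/-- heights -/
noncomputable def zb (R : ℝ) (i : ℕ) : ℝ := if i = 0 then 0 else R ^ (i - 1)

/-- first coordinates -/
noncomputable def xb (R δ ε : ℝ) (i : ℕ) : ℝ :=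
  if i = 0 then 0 else if i = 1 then 1 else
    R ^ (i - 1) * (1 - (1 + ε) * (1 - δ * ((i - 1 : ℕ) : ℝ) ^ 2))

/-- second coordinates -/
noncomputable def yb (R ε : ℝ) (i : ℕ) : ℝ := -((1 + ε) * (R ^ (i - 1) * ((i - 1 : ℕ) : ℝ)))

lemma hw_cont (M : ℕ) (δ q : ℝ) : Continuous (fun p : ℝ × ℝ => hw M δ q p.1 p.2) := by
  unfold hw fw
  apply Continuous.mul continuous_const
  apply Continuous.norm
  apply continuous_pi
  intro β
  fun_prop

lemma hw_hom (M : ℕ) (δ q : ℝ) (t a b : ℝ) (ht : 0 < t) :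
    hw M δ q (a / t) (b / t) = hw M δ q a b / t := by
  unfold hw
  have : fw M δ (a / t) (b / t) = (1 / t) • fw M δ a b := by
    funext β
    simp only [fw, Pi.smul_apply, smul_eq_mul]
    ring
  rw [this, norm_smul, Real.norm_eq_abs, abs_of_pos (by positivity)]
  ring

lemma hw_le (M : ℕ) (δ q a b : ℝ) (hM : 1 ≤ M) (hq1 : q ≤ 1) (hδ0 : 0 ≤ δ)
    (hδ : δ * (M : ℝ) ^ 2 ≤ 1) : hw M δ q a b ≤ M * (|a| + |b|) := by
  unfold hw
  have hM' : (1 : ℝ) ≤ M := by exact_mod_cast hM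
  have h1 : ‖fw M δ a b‖ ≤ M * (|a| + |b|) := by
    rw [pi_norm_le_iff_of_nonneg (by positivity)]
    intro β
    have hβ : ((β : ℕ) + 1 : ℝ) ≤ M := by
      have := β.isLt
      exact_mod_cast this
    have hβ0 : (0 : ℝ) ≤ ((β : ℕ) + 1 : ℝ) := by positivity
    have hsq : ((β : ℕ) + 1 : ℝ) ^ 2 ≤ (M : ℝ) ^ 2 := pow_le_pow_left₀ hβ0 hβ 2
    have h2 : |1 - δ * ((β : ℕ) + 1 : ℝ) ^ 2| ≤ 1 := by
      rw [abs_le]
      have h3 : δ * ((β : ℕ) + 1 : ℝ) ^ 2 ≤ δ * (M : ℝ) ^ 2 := mul_le_mul_of_nonneg_left hsq hδ0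
      have h4 : 0 ≤ δ * ((β : ℕ) + 1 : ℝ) ^ 2 := by positivity
      constructor <;> linarith
    rw [Real.norm_eq_abs, fw]
    calc |a * (1 - δ * ((β : ℕ) + 1 : ℝ) ^ 2) + b * ((β : ℕ) + 1 : ℝ)|
        ≤ |a * (1 - δ * ((β : ℕ) + 1 : ℝ) ^ 2)| + |b * ((β : ℕ) + 1 : ℝ)| := abs_add_le _ _
      _ = |a| * |1 - δ * ((β : ℕ) + 1 : ℝ) ^ 2| + |b| * ((β : ℕ) + 1 : ℝ) := by
          rw [abs_mul, abs_mul, abs_of_nonneg hβ0]
      _ ≤ |a| * 1 + |b| * M :=
          add_le_add (mul_le_mul_of_nonneg_left h2 (abs_nonneg _))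
            (mul_le_mul_of_nonneg_left hβ (abs_nonneg _))
      _ ≤ M * (|a| + |b|) := by
          have : |a| * 1 ≤ |a| * M := mul_le_mul_of_nonneg_left hM' (abs_nonneg _)
          linarith
  calc q * ‖fw M δ a b‖ ≤ 1 * ‖fw M δ a b‖ := mul_le_mul_of_nonneg_right hq1 (norm_nonneg _)
    _ ≤ _ := by rw [one_mul]; exact h1

lemma body_bound (M : ℕ) (δ q : ℝ) (hM : 1 ≤ M) (hq1 : q ≤ 1) (hδ0 : 0 ≤ δ)
    (hδ : δ * (M : ℝ) ^ 2 ≤ 1) (x : ℝ × ℝ) (hx : x ∈ body M δ q) : |x.1| ≤ M ∧ |x.2| ≤ M := by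
  have h1 := (hx 1 0).trans (hw_le M δ q 1 0 hM hq1 hδ0 hδ)
  have h2 := (hx (-1) 0).trans (hw_le M δ q (-1) 0 hM hq1 hδ0 hδ)
  have h3 := (hx 0 1).trans (hw_le M δ q 0 1 hM hq1 hδ0 hδ)
  have h4 := (hx 0 (-1)).trans (hw_le M δ q 0 (-1) hM hq1 hδ0 hδ)
  simp only [abs_neg, abs_one, abs_zero] at h1 h2 h3 h4
  constructor
  · rw [abs_le]; constructor <;> linarith
  · rw [abs_le]; constructor <;> linarith

/-- sharper bound for the second coordinate -/
lemma body_snd (M : ℕ) (δ q : ℝ) (hq0 : 0 ≤ q) (x : ℝ × ℝ) (hx : x ∈ body M δ q) :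
    |x.2| ≤ q * M := by
  have hb : ∀ b : ℝ, |b| = 1 → hw M δ q 0 b ≤ q * M := by
    intro b hb
    unfold hw
    apply mul_le_mul_of_nonneg_left _ hq0
    rw [pi_norm_le_iff_of_nonneg (by positivity)]
    intro β
    have hβ : ((β : ℕ) + 1 : ℝ) ≤ M := by
      have := β.isLt
      exact_mod_cast this
    rw [Real.norm_eq_abs, fw, zero_mul, zero_add, abs_mul, hb, one_mul,
      abs_of_nonneg (by positivity)]
    exact hβ
  have h3 := (hx 0 1).trans (hb 1 abs_one)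
  have h4 := (hx 0 (-1)).trans (hb (-1) (by simp))
  rw [abs_le]; constructor <;> linarith

lemma body_closed (M : ℕ) (δ q : ℝ) : IsClosed (body M δ q) := by
  unfold body
  simp only [Set.ofPred_forall]
  apply isClosed_iInter
  intro a
  apply isClosed_iInter
  intro b
  exact isClosed_le (by fun_prop) continuous_const

lemma body_convex (M : ℕ) (δ q : ℝ) : Convex ℝ (body M δ q) := by
  intro x hx y hy s t hs ht hst a b
  have h1 := mul_le_mul_of_nonneg_left (hx a b) hs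
  have h2 := mul_le_mul_of_nonneg_left (hy a b) ht
  simp only [Prod.fst_add, Prod.snd_add, Prod.smul_fst, Prod.smul_snd, smul_eq_mul]
  have : hw M δ q a b = s * hw M δ q a b + t * hw M δ q a b := by
    rw [← add_mul, hst, one_mul]
  rw [this]
  linarith

lemma body_compact (M : ℕ) (δ q : ℝ) (hM : 1 ≤ M) (hq1 : q ≤ 1) (hδ0 : 0 ≤ δ)
    (hδ : δ * (M : ℝ) ^ 2 ≤ 1) : IsCompact (body M δ q) := by
  apply Metric.isCompact_of_isClosed_isBounded (body_closed M δ q)
  rw [Metric.isBounded_iff_subset_closedBall 0]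
  refine ⟨M, fun x hx => ?_⟩
  obtain ⟨h1, h2⟩ := body_bound M δ q hM hq1 hδ0 hδ x hx
  rw [mem_closedBall_zero_iff, Prod.norm_def]
  exact max_le h1 h2

/-- the value of the support function in the special directions -/
lemma norm_fw_special (M : ℕ) (δ : ℝ) (hδ0 : 0 ≤ δ) (hδ : δ * (M : ℝ) ^ 2 ≤ 1) (β : Fin M) :
    ‖fw M δ 1 (2 * δ * ((β : ℕ) + 1 : ℝ))‖ = 1 + δ * ((β : ℕ) + 1 : ℝ) ^ 2 := by
  have hval : ∀ γ : Fin M, fw M δ 1 (2 * δ * ((β : ℕ) + 1 : ℝ)) γ =
      1 + δ * ((β : ℕ) + 1 : ℝ) ^ 2 - δ * (((β : ℕ) + 1 : ℝ) - ((γ : ℕ) + 1 : ℝ)) ^ 2 := by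
    intro γ
    unfold fw
    ring
  apply le_antisymm
  · rw [pi_norm_le_iff_of_nonneg (by positivity)]
    intro γ
    rw [hval, Real.norm_eq_abs, abs_le]
    have hsq : 0 ≤ δ * (((β : ℕ) + 1 : ℝ) - ((γ : ℕ) + 1 : ℝ)) ^ 2 := by positivity
    have hγ : ((γ : ℕ) + 1 : ℝ) ≤ M := by
      have := γ.isLt
      exact_mod_cast this
    have hβ : ((β : ℕ) + 1 : ℝ) ≤ M := by
      have := β.isLt
      exact_mod_cast this
    have h1 : (((β : ℕ) + 1 : ℝ) - ((γ : ℕ) + 1 : ℝ)) ^ 2 ≤ (M : ℝ) ^ 2 := by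
      apply sq_le_sq'
      · have : (0 : ℝ) ≤ ((β : ℕ) + 1 : ℝ) := by positivity
        linarith
      · have : (0 : ℝ) ≤ ((γ : ℕ) + 1 : ℝ) := by positivity
        linarith
    have h2 : δ * (((β : ℕ) + 1 : ℝ) - ((γ : ℕ) + 1 : ℝ)) ^ 2 ≤ δ * (M : ℝ) ^ 2 :=
      mul_le_mul_of_nonneg_left h1 hδ0
    have h3 : 0 ≤ δ * ((β : ℕ) + 1 : ℝ) ^ 2 := by positivity
    constructor <;> linarith
  · have h := norm_le_pi_norm (fw M δ 1 (2 * δ * ((β : ℕ) + 1 : ℝ))) β
    rw [hval, sub_self, Real.norm_eq_abs] at h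
    have h3 : 0 ≤ δ * ((β : ℕ) + 1 : ℝ) ^ 2 := by positivity
    rw [abs_of_nonneg (by nlinarith)] at h
    nlinarith

lemma zb_strictMono {R : ℝ} (hR : 1 < R) {i j : ℕ} (hij : i < j) : zb R i < zb R j := by
  unfold zb
  have hj : j ≠ 0 := by omega
  rw [if_neg hj]
  by_cases hi : i = 0
  · rw [if_pos hi]; positivity
  · rw [if_neg hi]
    exact pow_lt_pow_right₀ hR (by omega)

/-- the gap estimate for second coordinates -/
lemma gap {M : ℕ} {R : ℝ} (hM : 1 ≤ M) (hR : 4 * (M : ℝ) ≤ R) {i j k : ℕ} (hij : i < j)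
    (hjk : j < k) (hk : k ≤ M + 1) (hnot : ¬ (i = 0 ∧ j = 1)) {lam : ℝ}
    (hlam : lam * (zb R k - zb R i) = zb R j - zb R i) :
    2 * (M : ℝ) ≤ |R ^ (j - 1) * ((j - 1 : ℕ) : ℝ) - (1 - lam) * (R ^ (i - 1) * ((i - 1 : ℕ) : ℝ)) -
      lam * (R ^ (k - 1) * ((k - 1 : ℕ) : ℝ))| := by
  have hM' : (1 : ℝ) ≤ M := by exact_mod_cast hM
  have hR1 : 1 < R := by linarith
  have hzij := zb_strictMono hR1 hij
  have hzjk := zb_strictMono hR1 hjk
  have hzi0 : 0 ≤ zb R i := by unfold zb; split_ifs <;> positivity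
  have hden : 0 < zb R k - zb R i := by linarith
  have hlam0 : 0 < lam := by
    by_contra hcon
    push Not at hcon
    have : lam * (zb R k - zb R i) ≤ 0 := mul_nonpos_of_nonpos_of_nonneg hcon hden.le
    linarith
  have hlam1 : lam < 1 := by
    by_contra hcon
    push Not at hcon
    have : 1 * (zb R k - zb R i) ≤ lam * (zb R k - zb R i) :=
      mul_le_mul_of_nonneg_right hcon hden.le
    linarith
  have ej : R ^ (j - 1) = zb R j := by unfold zb; rw [if_neg (by omega)]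
  have ek : R ^ (k - 1) = zb R k := by unfold zb; rw [if_neg (by omega)]
  have ei : R ^ (i - 1) * ((i - 1 : ℕ) : ℝ) = zb R i * ((i - 1 : ℕ) : ℝ) := by
    unfold zb
    split_ifs with h
    · subst h; simp
    · rfl
  rw [ej, ek, ei]
  set bi : ℝ := ((i - 1 : ℕ) : ℝ) with hbi
  set bj : ℝ := ((j - 1 : ℕ) : ℝ) with hbj
  set bk : ℝ := ((k - 1 : ℕ) : ℝ) with hbk
  have hbjk : bj + 1 ≤ bk := by
    rw [hbj, hbk]
    have : (j - 1) + 1 ≤ k - 1 := by omega
    exact_mod_cast this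
  have hbkM : bk ≤ M := by
    rw [hbk]
    have : k - 1 ≤ M := by omega
    exact_mod_cast this
  have hbi0 : 0 ≤ bi := Nat.cast_nonneg _
  have e1 : zb R j * bj - (1 - lam) * (zb R i * bi) - lam * (zb R k * bk) =
      -((bk - bj) * zb R j) + (1 - lam) * (bk - bi) * zb R i := by
    have : lam * (zb R k * bk) = (zb R j - zb R i) * bk + lam * zb R i * bk := by
      rw [← hlam]; ring
    rw [this]
    ring
  rw [e1]
  have hmain : 2 * (M : ℝ) ≤ (bk - bj) * zb R j - (1 - lam) * (bk - bi) * zb R i := by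
    have h1 : zb R j ≤ (bk - bj) * zb R j := by
      have : 1 * zb R j ≤ (bk - bj) * zb R j :=
        mul_le_mul_of_nonneg_right (by linarith) (by linarith)
      linarith
    have h2 : (1 - lam) * (bk - bi) * zb R i ≤ M * zb R i := by
      apply mul_le_mul_of_nonneg_right _ hzi0
      rcases le_total 0 (bk - bi) with hb | hb
      · have h3 : (1 - lam) * (bk - bi) ≤ 1 * (bk - bi) :=
          mul_le_mul_of_nonneg_right (by linarith) hb
        linarith
      · have h3 : (1 - lam) * (bk - bi) ≤ 0 :=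
          mul_nonpos_of_nonneg_of_nonpos (by linarith) hb
        linarith
    have h4 : 2 * (M : ℝ) + M * zb R i ≤ zb R j := by
      by_cases hi : i = 0
      · have hj : 2 ≤ j := by
          by_contra hcon
          exact hnot ⟨hi, by omega⟩
        have hz : zb R i = 0 := by unfold zb; rw [if_pos hi]
        rw [hz, mul_zero, add_zero]
        have : R ≤ zb R j := by
          rw [← ej]
          calc R = R ^ 1 := (pow_one R).symm
            _ ≤ R ^ (j - 1) := pow_le_pow_right₀ hR1.le (by omega)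
        linarith
      · have hz1 : 1 ≤ zb R i := by
          unfold zb; rw [if_neg hi]
          exact one_le_pow₀ hR1.le
        have hz2 : R * zb R i ≤ zb R j := by
          rw [← ej]
          unfold zb
          rw [if_neg hi, ← pow_succ']
          exact pow_le_pow_right₀ hR1.le (by omega)
        have h5 : 4 * (M : ℝ) * zb R i ≤ R * zb R i := mul_le_mul_of_nonneg_right hR hzi0
        have h6 : (M : ℝ) * 1 ≤ M * zb R i := mul_le_mul_of_nonneg_left hz1 (by linarith)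
        nlinarith
    linarith
  rw [show -((bk - bj) * zb R j) + (1 - lam) * (bk - bi) * zb R i =
    -((bk - bj) * zb R j - (1 - lam) * (bk - bi) * zb R i) by ring, abs_neg]
  exact hmain.trans (le_abs_self _)

lemma base_sep {M : ℕ} {R δ : ℝ} (hM : 1 ≤ M) (hR : 4 * (M : ℝ) ≤ R) (hδ0 : 0 < δ)
    (hδ : δ * (M : ℝ) ^ 2 ≤ 1) (hδ1 : δ ≤ 1) :
    ∀ μ : Fin (M + 2) → ℝ, 0 < ∑ i, |μ i| →
      (Finset.univ.filter (fun i => μ i ≠ 0)).card ≤ 1 + 2 →
      ∑ i, μ i = 0 → (∀ _j : Fin 1, ∑ i, μ i * zb R (i : ℕ) = 0) →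
      ∀ x ∈ body M δ ((1 + δ / 4) / 2),
        ∑ i, μ i * xb R δ (δ / 2) (i : ℕ) = (∑ i, |μ i|) * x.1 →
        ∑ i, μ i * yb R (δ / 2) (i : ℕ) = (∑ i, |μ i|) * x.2 → False := by
  classical
  intro μ hμ hcard hsum hz x hx hX hY
  have hM' : (1 : ℝ) ≤ M := by exact_mod_cast hM
  have hR1 : 1 < R := by linarith
  obtain ⟨t, hst, ht⟩ := Finset.exists_superset_card_eq hcard
    (by rw [Fintype.card_fin]; omega : 1 + 2 ≤ Fintype.card (Fin (M + 2)))
  set e := t.orderEmbOfFin (k := 3) ht with he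
  have three : ∀ F : Fin (M + 2) → ℝ, (∀ i, μ i = 0 → F i = 0) →
      ∑ i, F i = F (e 0) + F (e 1) + F (e 2) := by
    intro F hF
    have h1 : ∑ i ∈ t, F i = ∑ i, F i := by
      apply Finset.sum_subset (Finset.subset_univ t)
      intro i _ hi
      apply hF
      by_contra hne
      exact hi (hst (Finset.mem_filter.mpr ⟨Finset.mem_univ _, hne⟩))
    rw [← h1]
    have h2 : t = Finset.univ.map e.toEmbedding := by
      rw [he, Finset.map_orderEmbOfFin_univ]
    conv_lhs => rw [h2]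
    rw [Finset.sum_map, Fin.sum_univ_three]
    rfl
  have hij : e 0 < e 1 := e.strictMono (by decide)
  have hjk : e 1 < e 2 := e.strictMono (by decide)
  set i := e 0 with hi
  set j := e 1 with hj
  set k := e 2 with hk
  have hij' : (i : ℕ) < j := hij
  have hjk' : (j : ℕ) < k := hjk
  have hk' : (k : ℕ) ≤ M + 1 := by have := k.isLt; omega
  have s1 := three μ (fun _ h => h)
  have s2 := three (fun i => μ i * zb R (i : ℕ)) (fun i h => by simp [h])
  have s3 := three (fun i => μ i * xb R δ (δ / 2) (i : ℕ)) (fun i h => by simp [h])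
  have s4 := three (fun i => μ i * yb R (δ / 2) (i : ℕ)) (fun i h => by simp [h])
  have s5 := three (fun i => |μ i|) (fun i h => by simp [h])
  rw [hsum] at s1
  rw [hz 0] at s2
  rw [hX] at s3
  rw [hY] at s4
  have hzij := zb_strictMono hR1 hij'
  have hzjk := zb_strictMono hR1 hjk'
  have hden : 0 < zb R k - zb R i := by linarith
  obtain ⟨lam, hlam⟩ : ∃ lam : ℝ, lam = (zb R j - zb R i) / (zb R k - zb R i) := ⟨_, rfl⟩
  have hlam' : lam * (zb R k - zb R i) = zb R j - zb R i := by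
    rw [hlam]; field_simp
  have hlam0 : 0 < lam := by rw [hlam]; apply div_pos <;> linarith
  have hlam1 : lam < 1 := by rw [hlam, div_lt_one hden]; linarith
  have hμk : μ k = -(lam * μ j) := by
    have h1 : μ k * (zb R k - zb R i) = -(lam * μ j) * (zb R k - zb R i) := by
      have h2 : -(lam * μ j) * (zb R k - zb R i) = -(μ j * (lam * (zb R k - zb R i))) := by ring
      rw [h2, hlam']
      have h3 : μ i = -μ j - μ k := by linarith
      rw [h3] at s2
      linarith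
    exact mul_right_cancel₀ hden.ne' h1
  have hμi : μ i = -((1 - lam) * μ j) := by
    have : μ i = -μ j - μ k := by linarith
    rw [this, hμk]; ring
  have hm : ∑ i, |μ i| = 2 * |μ j| := by
    rw [s5, hμi, hμk, abs_neg, abs_neg, abs_mul, abs_mul, abs_of_pos hlam0,
      abs_of_pos (by linarith : 0 < 1 - lam)]
    ring
  have hμj : 0 < |μ j| := by rw [hm] at hμ; linarith
  rw [hm] at s3 s4
  by_cases hcase : (i : ℕ) = 0 ∧ (j : ℕ) = 1
  · obtain ⟨hi0, hj1⟩ := hcase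
    have hk2 : 2 ≤ (k : ℕ) := by omega
    have hγ : (k : ℕ) - 2 < M := by omega
    set γ : Fin M := ⟨(k : ℕ) - 2, hγ⟩ with hγdef
    have hβ : ((γ : ℕ) + 1 : ℝ) = (((k : ℕ) - 1 : ℕ) : ℝ) := by
      have : (k : ℕ) - 1 = (k : ℕ) - 2 + 1 := by omega
      rw [this]; push_cast; rfl
    obtain ⟨β, hβdef⟩ : ∃ β : ℝ, β = ((γ : ℕ) + 1 : ℝ) := ⟨_, rfl⟩
    have hnorm := norm_fw_special M δ hδ0.le hδ γ
    rw [← hβdef] at hnorm
    have hxk : xb R δ (δ / 2) k = R ^ ((k : ℕ) - 1) * (1 - (1 + δ / 2) * (1 - δ * β ^ 2)) := by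
      unfold xb
      rw [if_neg (by omega), if_neg (by omega), ← hβ, ← hβdef]
    have hyk : yb R (δ / 2) k = -((1 + δ / 2) * (R ^ ((k : ℕ) - 1) * β)) := by
      unfold yb
      rw [← hβ, ← hβdef]
    have hx0 : xb R δ (δ / 2) i = 0 := by unfold xb; rw [if_pos hi0]
    have hx1 : xb R δ (δ / 2) j = 1 := by unfold xb; rw [if_neg (by omega), if_pos hj1]
    have hy0 : yb R (δ / 2) i = 0 := by unfold yb; rw [hi0]; simp
    have hy1 : yb R (δ / 2) j = 0 := by unfold yb; rw [hj1]; simp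
    have hz0 : zb R i = 0 := by unfold zb; rw [if_pos hi0]
    have hz1 : zb R j = 1 := by unfold zb; rw [hj1]; simp
    have hzk : zb R k = R ^ ((k : ℕ) - 1) := by unfold zb; rw [if_neg (by omega)]
    have hlz : lam * R ^ ((k : ℕ) - 1) = 1 := by
      rw [← hzk]
      rw [hz0, hz1] at hlam'
      linarith
    rw [hx0, hx1, hxk, hμk] at s3
    rw [hy0, hy1, hyk, hμk] at s4
    have hcomb : 2 * |μ j| * (x.1 + 2 * δ * β * x.2) = μ j * ((1 + δ / 2) * (1 + δ * β ^ 2)) := by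
      have h1 : 2 * |μ j| * (x.1 + 2 * δ * β * x.2) =
          2 * |μ j| * x.1 + 2 * δ * β * (2 * |μ j| * x.2) := by ring
      rw [h1, s3, s4]
      have h2 : μ i * 0 + μ j * 1 +
          -(lam * μ j) * (R ^ ((k : ℕ) - 1) * (1 - (1 + δ / 2) * (1 - δ * β ^ 2))) +
          2 * δ * β * (μ i * 0 + μ j * 0 +
            -(lam * μ j) * -((1 + δ / 2) * (R ^ ((k : ℕ) - 1) * β))) =
          μ j * (1 - (lam * R ^ ((k : ℕ) - 1)) * (1 - (1 + δ / 2) * (1 + δ * β ^ 2))) := by ring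
      rw [h2, hlz]
      ring
    have hpos : 0 < 1 + δ * β ^ 2 := by positivity
    have hb1 : x.1 + 2 * δ * β * x.2 ≤ (1 + δ / 4) / 2 * (1 + δ * β ^ 2) := by
      have := hx 1 (2 * δ * β)
      unfold hw at this
      rw [hnorm] at this
      linarith
    have hb2 : -(x.1 + 2 * δ * β * x.2) ≤ (1 + δ / 4) / 2 * (1 + δ * β ^ 2) := by
      have := hx (-1) (-(2 * δ * β))
      unfold hw at this
      have hneg : fw M δ (-1) (-(2 * δ * β)) = -fw M δ 1 (2 * δ * β) := by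
        funext γ'
        simp only [fw, Pi.neg_apply]
        ring
      rw [hneg, norm_neg, hnorm] at this
      linarith
    have habs : |x.1 + 2 * δ * β * x.2| ≤ (1 + δ / 4) / 2 * (1 + δ * β ^ 2) := by
      rw [abs_le]; constructor <;> linarith
    have h3 := congrArg abs hcomb
    rw [abs_mul, abs_mul, abs_mul, abs_abs, abs_of_pos (by norm_num : (0 : ℝ) < 2),
      abs_of_pos (by positivity : 0 < (1 + δ / 2) * (1 + δ * β ^ 2))] at h3
    have h4 : 2 * |μ j| * |x.1 + 2 * δ * β * x.2| ≤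
        2 * |μ j| * ((1 + δ / 4) / 2 * (1 + δ * β ^ 2)) :=
      mul_le_mul_of_nonneg_left habs (by positivity)
    rw [h3] at h4
    have h5 : 0 < |μ j| * (1 + δ * β ^ 2) * (δ / 4) := by positivity
    nlinarith
  · have hg := gap hM hR hij' hjk' hk' hcase hlam'
    have hyf : ∀ l : Fin (M + 2), yb R (δ / 2) l =
      -((1 + δ / 2) * (R ^ ((l : ℕ) - 1) * (((l : ℕ) - 1 : ℕ) : ℝ))) := fun _ => rfl
    rw [hyf, hyf, hyf, hμi, hμk] at s4
    set W := R ^ ((j : ℕ) - 1) * (((j : ℕ) - 1 : ℕ) : ℝ) -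
      (1 - lam) * (R ^ ((i : ℕ) - 1) * (((i : ℕ) - 1 : ℕ) : ℝ)) -
      lam * (R ^ ((k : ℕ) - 1) * (((k : ℕ) - 1 : ℕ) : ℝ)) with hW
    have h1 : 2 * |μ j| * x.2 = -(μ j * ((1 + δ / 2) * W)) := by
      rw [s4, hW]; ring
    have h2 := congrArg abs h1
    rw [abs_neg, abs_mul, abs_mul, abs_mul, abs_mul, abs_abs,
      abs_of_pos (by norm_num : (0 : ℝ) < 2), abs_of_pos (by positivity : 0 < 1 + δ / 2)] at h2
    have h3 : 2 * |x.2| = (1 + δ / 2) * |W| := by
      have h4 : |μ j| * (2 * |x.2|) = |μ j| * ((1 + δ / 2) * |W|) := by linarith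
      exact mul_left_cancel₀ hμj.ne' h4
    have h5 := body_snd M δ ((1 + δ / 4) / 2) (by positivity) x hx
    have h6 : (1 + δ / 2) * (2 * (M : ℝ)) ≤ (1 + δ / 2) * |W| :=
      mul_le_mul_of_nonneg_left hg (by positivity)
    have h7 : (1 + δ / 4) / 2 * (M : ℝ) ≤ 1 * M := by
      apply mul_le_mul_of_nonneg_right _ (by linarith)
      linarith
    have h8 : 0 ≤ δ / 2 * (2 * (M : ℝ)) := by positivity
    nlinarith

lemma base_non {M : ℕ} {R δ : ℝ} (hM : 2 ≤ M) (hR : 4 * (M : ℝ) ≤ R) (hδ0 : 0 < δ) :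
    ∀ (a b c : ℝ) (s : Fin 1 → ℝ),
      (∀ i : Fin (M + 2), |val (fun i : Fin (M + 2) => xb R δ (δ / 2) (i : ℕ))
        (fun i => yb R (δ / 2) (i : ℕ)) (fun i _ => zb R (i : ℕ)) a b c s i| ≤
          hw M δ ((1 + δ / 4) / 2) a b) → size a b c s = 0 := by
  intro a b c s hall
  have hM' : (2 : ℝ) ≤ M := by exact_mod_cast hM
  have hR1 : 1 < R := by linarith
  have : Nonempty (Fin M) := ⟨⟨0, by omega⟩⟩
  obtain ⟨γ, hγ⟩ := Finite.exists_max (fun γ : Fin M => |fw M δ a b γ|)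
  have hnorm : ‖fw M δ a b‖ = |fw M δ a b γ| := by
    apply le_antisymm
    · rw [pi_norm_le_iff_of_nonneg (abs_nonneg _)]
      exact hγ
    · exact norm_le_pi_norm (fw M δ a b) γ
  have hval : ∀ i : Fin (M + 2), val (fun i : Fin (M + 2) => xb R δ (δ / 2) (i : ℕ))
        (fun i => yb R (δ / 2) (i : ℕ)) (fun i _ => zb R (i : ℕ)) a b c s i =
        a * xb R δ (δ / 2) (i : ℕ) + b * yb R (δ / 2) (i : ℕ) - c - s 0 * zb R (i : ℕ) := by
    intro i
    unfold val
    simp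
  have v0 := hall ⟨0, by omega⟩
  have v1 := hall ⟨1, by omega⟩
  have v2 := hall ⟨(γ : ℕ) + 2, by have := γ.isLt; omega⟩
  rw [hval] at v0 v1 v2
  simp only at v0 v1 v2
  have x0 : xb R δ (δ / 2) 0 = 0 := by unfold xb; simp
  have x1 : xb R δ (δ / 2) 1 = 1 := by unfold xb; simp
  have y0 : yb R (δ / 2) 0 = 0 := by unfold yb; simp
  have y1 : yb R (δ / 2) 1 = 0 := by unfold yb; simp
  have z0 : zb R 0 = 0 := by unfold zb; simp
  have z1 : zb R 1 = 1 := by unfold zb; simp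
  obtain ⟨β, hβ⟩ : ∃ β : ℝ, β = ((γ : ℕ) + 1 : ℝ) := ⟨_, rfl⟩
  have hβ' : (((γ : ℕ) + 2 - 1 : ℕ) : ℝ) = β := by
    rw [hβ]
    have : (γ : ℕ) + 2 - 1 = (γ : ℕ) + 1 := by omega
    rw [this]; push_cast; rfl
  obtain ⟨ℓ, hℓ⟩ : ∃ ℓ : ℝ, ℓ = R ^ ((γ : ℕ) + 2 - 1) := ⟨_, rfl⟩
  have hℓ1 : 1 ≤ ℓ := by rw [hℓ]; exact one_le_pow₀ hR1.le
  have x2 : xb R δ (δ / 2) ((γ : ℕ) + 2) = ℓ * (1 - (1 + δ / 2) * (1 - δ * β ^ 2)) := by
    unfold xb
    rw [if_neg (by omega), if_neg (by omega), hβ', ← hℓ]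
  have y2 : yb R (δ / 2) ((γ : ℕ) + 2) = -((1 + δ / 2) * (ℓ * β)) := by
    unfold yb
    rw [hβ', ← hℓ]
  have z2 : zb R ((γ : ℕ) + 2) = ℓ := by
    unfold zb
    rw [if_neg (by omega), ← hℓ]
  rw [x0, y0, z0] at v0
  rw [x1, y1, z1] at v1
  rw [x2, y2, z2] at v2
  have hf : fw M δ a b γ = a * (1 - δ * β ^ 2) + b * β := by
    unfold fw
    rw [hβ]
  set f := fw M δ a b γ with hfdef
  unfold hw at v0 v1 v2
  rw [hnorm] at v0 v1 v2
  set H := (1 + δ / 4) / 2 * |f| with hH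
  have hH0 : 0 ≤ H := by positivity
  have hcomb : (1 + δ / 2) * f = (a * 1 + b * 0 - c - s 0 * 1) -
      (1 - 1 / ℓ) * (a * 0 + b * 0 - c - s 0 * 0) -
      1 / ℓ * (a * (ℓ * (1 - (1 + δ / 2) * (1 - δ * β ^ 2))) +
        b * -((1 + δ / 2) * (ℓ * β)) - c - s 0 * ℓ) := by
    rw [hf]
    field_simp
    ring
  have hbound : (1 + δ / 2) * |f| ≤ 2 * H := by
    have h1 : (1 + δ / 2) * |f| = |(1 + δ / 2) * f| := by
      rw [abs_mul, abs_of_pos (by positivity : 0 < 1 + δ / 2)]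
    rw [h1, hcomb]
    have h2 : 0 ≤ 1 - 1 / ℓ := by
      rw [sub_nonneg, div_le_one (by linarith)]
      exact hℓ1
    have h3 : 0 ≤ 1 / ℓ := by positivity
    calc _ ≤ |(a * 1 + b * 0 - c - s 0 * 1) - (1 - 1 / ℓ) * (a * 0 + b * 0 - c - s 0 * 0)| +
          |1 / ℓ * (a * (ℓ * (1 - (1 + δ / 2) * (1 - δ * β ^ 2))) +
          b * -((1 + δ / 2) * (ℓ * β)) - c - s 0 * ℓ)| := abs_sub _ _
      _ ≤ (|a * 1 + b * 0 - c - s 0 * 1| + |(1 - 1 / ℓ) * (a * 0 + b * 0 - c - s 0 * 0)|) +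
          |1 / ℓ * (a * (ℓ * (1 - (1 + δ / 2) * (1 - δ * β ^ 2))) +
          b * -((1 + δ / 2) * (ℓ * β)) - c - s 0 * ℓ)| := by
          have := abs_sub (a * 1 + b * 0 - c - s 0 * 1) ((1 - 1 / ℓ) * (a * 0 + b * 0 - c - s 0 * 0))
          linarith
      _ ≤ (H + (1 - 1 / ℓ) * H) + 1 / ℓ * H := by
          rw [abs_mul, abs_mul, abs_of_nonneg h2, abs_of_nonneg h3]
          have e1 := mul_le_mul_of_nonneg_left v0 h2
          have e2 := mul_le_mul_of_nonneg_left v2 h3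
          linarith
      _ = 2 * H := by ring
  have hf0 : |f| = 0 := by
    have h1 : 0 ≤ |f| := abs_nonneg f
    have h2 : 2 * H = (1 + δ / 4) * |f| := by rw [hH]; ring
    rw [h2] at hbound
    nlinarith
  have hH00 : H = 0 := by rw [hH, hf0, mul_zero]
  have hall0 : ∀ γ' : Fin M, fw M δ a b γ' = 0 := by
    intro γ'
    have := hγ γ'
    rw [hf0] at this
    exact abs_nonpos_iff.mp this
  have f0 := hall0 ⟨0, by omega⟩
  have f1 := hall0 ⟨1, by omega⟩
  unfold fw at f0 f1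
  simp only [Nat.cast_zero, Nat.cast_one] at f0 f1
  have ha : a = 0 := by
    have : a * (1 + 2 * δ) = 0 := by nlinarith
    rcases mul_eq_zero.mp this with h | h
    · exact h
    · linarith
  have hb : b = 0 := by
    rw [ha] at f0
    linarith
  rw [hH00] at v0 v1
  have w0 := abs_nonpos_iff.mp v0
  have w1 := abs_nonpos_iff.mp v1
  rw [ha, hb] at w0 w1
  have hc : c = 0 := by linarith
  have hs : s 0 = 0 := by rw [hc] at w1; linarith
  unfold size
  rw [ha, hb, hc]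
  simp [hs]

lemma base_tra {M r : ℕ} {R δ : ℝ} (hM : 1 ≤ M) (hr : r < M) (hR : 4 * (M : ℝ) ≤ R)
    (hδ0 : 0 < δ) (hδ : δ * (M : ℝ) ^ 2 ≤ 1) (hδ1 : δ ≤ 1)
    (hδR : 2 * δ * (M : ℝ) ^ 2 * R ^ M ≤ 1) (S : Finset (Fin (M + 2))) (hS : S.card ≤ r) :
    ∃ (a b c : ℝ) (s : Fin 1 → ℝ), 0 < hw M δ ((1 + δ / 4) / 2) a b ∧
      ∀ i ∈ S, |val (fun i : Fin (M + 2) => xb R δ (δ / 2) (i : ℕ))
        (fun i => yb R (δ / 2) (i : ℕ)) (fun i _ => zb R (i : ℕ)) a b c s i| <
          hw M δ ((1 + δ / 4) / 2) a b := by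
  classical
  have hM' : (1 : ℝ) ≤ M := by exact_mod_cast hM
  have hR1 : 1 < R := by linarith
  obtain ⟨γ, hγ⟩ : ∃ γ : Fin M, (⟨(γ : ℕ) + 2, by have := γ.isLt; omega⟩ : Fin (M + 2)) ∉ S := by
    by_contra hcon
    push Not at hcon
    have h1 : Fintype.card (Fin M) ≤ S.card := by
      have := Finset.card_le_card_of_injOn (s := (Finset.univ : Finset (Fin M))) (t := S)
        (fun γ => (⟨(γ : ℕ) + 2, by have := γ.isLt; omega⟩ : Fin (M + 2)))
        (fun γ _ => hcon γ) (by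
          intro γ _ γ' _ h
          simp only [Fin.mk.injEq] at h
          exact Fin.ext (by omega))
      rw [Finset.card_univ] at this
      exact this
    rw [Fintype.card_fin] at h1
    omega
  obtain ⟨β, hβ⟩ : ∃ β : ℝ, β = ((γ : ℕ) + 1 : ℝ) := ⟨_, rfl⟩
  have hnorm := norm_fw_special M δ hδ0.le hδ γ
  rw [← hβ] at hnorm
  have hβ1 : 1 ≤ β := by rw [hβ]; have : (0 : ℝ) ≤ (γ : ℕ) := Nat.cast_nonneg _; linarith
  have hβM : β ≤ M := by
    rw [hβ]
    have := γ.isLt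
    exact_mod_cast this
  set T := 1 + δ * β ^ 2 with hT
  have hT0 : 1 ≤ T := by rw [hT]; have : 0 ≤ δ * β ^ 2 := by positivity
                         linarith
  have hT2 : T ≤ 2 := by
    rw [hT]
    have h1 : β ^ 2 ≤ (M : ℝ) ^ 2 := pow_le_pow_left₀ (by linarith) hβM 2
    have h2 := mul_le_mul_of_nonneg_left h1 hδ0.le
    linarith
  have hhw : hw M δ ((1 + δ / 4) / 2) 1 (2 * δ * β) = (1 + δ / 4) / 2 * T := by
    unfold hw
    rw [hnorm]
  have hlt : T / 2 < (1 + δ / 4) / 2 * T := by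
    have : 0 < δ / 4 * T := by positivity
    nlinarith
  refine ⟨1, 2 * δ * β, T / 2, fun _ => 1 - T, by rw [hhw]; linarith, ?_⟩
  intro i hi
  rw [hhw]
  refine lt_of_le_of_lt ?_ hlt
  have hval : val (fun i : Fin (M + 2) => xb R δ (δ / 2) (i : ℕ))
        (fun i => yb R (δ / 2) (i : ℕ)) (fun i _ => zb R (i : ℕ)) 1 (2 * δ * β) (T / 2)
        (fun _ : Fin 1 => 1 - T) i =
        xb R δ (δ / 2) (i : ℕ) + 2 * δ * β * yb R (δ / 2) (i : ℕ) - T / 2 -
          (1 - T) * zb R (i : ℕ) := by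
    unfold val
    simp
  rw [hval]
  by_cases h0 : (i : ℕ) = 0
  · have x0 : xb R δ (δ / 2) (i : ℕ) = 0 := by unfold xb; simp [h0]
    have y0 : yb R (δ / 2) (i : ℕ) = 0 := by unfold yb; simp [h0]
    have z0 : zb R (i : ℕ) = 0 := by unfold zb; simp [h0]
    rw [x0, y0, z0, abs_le]
    constructor <;> linarith
  · by_cases h1 : (i : ℕ) = 1
    · have x1 : xb R δ (δ / 2) (i : ℕ) = 1 := by unfold xb; simp [h1]
      have y1 : yb R (δ / 2) (i : ℕ) = 0 := by unfold yb; simp [h1]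
      have z1 : zb R (i : ℕ) = 1 := by unfold zb; simp [h1]
      rw [x1, y1, z1, abs_le]
      constructor <;> linarith
    · obtain ⟨ℓ, hℓ⟩ : ∃ ℓ : ℝ, ℓ = R ^ ((i : ℕ) - 1) := ⟨_, rfl⟩
      obtain ⟨g, hg⟩ : ∃ g : ℝ, g = (((i : ℕ) - 1 : ℕ) : ℝ) := ⟨_, rfl⟩
      have hiM : (i : ℕ) - 1 ≤ M := by have := i.isLt; omega
      have hℓ1 : 1 ≤ ℓ := by rw [hℓ]; exact one_le_pow₀ hR1.le
      have hℓM : ℓ ≤ R ^ M := by rw [hℓ]; exact pow_le_pow_right₀ hR1.le hiM
      have hgM : g ≤ M := by rw [hg]; exact_mod_cast hiM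
      have hg0 : 0 ≤ g := by rw [hg]; exact Nat.cast_nonneg _
      have x2 : xb R δ (δ / 2) (i : ℕ) = ℓ * (1 - (1 + δ / 2) * (1 - δ * g ^ 2)) := by
        unfold xb
        rw [if_neg h0, if_neg h1, ← hg, ← hℓ]
      have y2 : yb R (δ / 2) (i : ℕ) = -((1 + δ / 2) * (ℓ * g)) := by
        unfold yb
        rw [← hg, ← hℓ]
      have z2 : zb R (i : ℕ) = ℓ := by
        unfold zb
        rw [if_neg h0, ← hℓ]
      have hgap : 1 ≤ (β - g) ^ 2 := by
        have hne : (i : ℕ) - 1 ≠ (γ : ℕ) + 1 := by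
          intro h
          apply hγ
          have : (⟨(γ : ℕ) + 2, by have := γ.isLt; omega⟩ : Fin (M + 2)) = i :=
            Fin.ext (by simp only; omega)
          rw [this]
          exact hi
        have h2 : (1 : ℝ) ≤ |β - g| := by
          have h3 : (1 : ℤ) ≤ |(((γ : ℕ) + 1 : ℕ) : ℤ) - (((i : ℕ) - 1 : ℕ) : ℤ)| := by
            apply Int.one_le_abs
            omega
          have h4 : ((1 : ℤ) : ℝ) ≤ ((|(((γ : ℕ) + 1 : ℕ) : ℤ) - (((i : ℕ) - 1 : ℕ) : ℤ)| : ℤ) : ℝ) :=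
            Int.cast_le.mpr h3
          rw [Int.cast_abs] at h4
          push_cast at h4
          rw [hβ, hg]
          simpa using h4
        have h5 : (1 : ℝ) ^ 2 ≤ |β - g| ^ 2 := pow_le_pow_left₀ zero_le_one h2 2
        rw [sq_abs] at h5
        linarith
      have hgap2 : (β - g) ^ 2 ≤ (M : ℝ) ^ 2 := by
        apply sq_le_sq'
        · linarith
        · linarith
      rw [x2, y2, z2]
      set D := (1 + δ / 2) * (δ * (β - g) ^ 2) - δ / 2 * T with hD
      have hDval : ℓ * (1 - (1 + δ / 2) * (1 - δ * g ^ 2)) +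
          2 * δ * β * -((1 + δ / 2) * (ℓ * g)) - T / 2 - (1 - T) * ℓ = ℓ * D - T / 2 := by
        rw [hD, hT]
        ring
      rw [hDval]
      have hD0 : 0 ≤ D := by
        rw [hD]
        have e1 : δ * 1 ≤ δ * (β - g) ^ 2 := mul_le_mul_of_nonneg_left hgap hδ0.le
        have e2 : δ / 2 * T ≤ δ / 2 * 2 := mul_le_mul_of_nonneg_left hT2 (by positivity)
        have e3 : 0 ≤ δ / 2 * (δ * (β - g) ^ 2) := by positivity
        nlinarith
      have hD1 : D ≤ 2 * δ * (M : ℝ) ^ 2 := by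
        rw [hD]
        have e1 : δ * (β - g) ^ 2 ≤ δ * (M : ℝ) ^ 2 := mul_le_mul_of_nonneg_left hgap2 hδ0.le
        have e2 : (1 + δ / 2) * (δ * (β - g) ^ 2) ≤ 2 * (δ * (M : ℝ) ^ 2) := by
          apply mul_le_mul (by linarith) e1 (by positivity) (by norm_num)
        have e3 : 0 ≤ δ / 2 * T := by positivity
        linarith
      have hℓD : ℓ * D ≤ 1 := by
        calc ℓ * D ≤ R ^ M * (2 * δ * (M : ℝ) ^ 2) :=
              mul_le_mul hℓM hD1 hD0 (by positivity)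
          _ = 2 * δ * (M : ℝ) ^ 2 * R ^ M := by ring
          _ ≤ 1 := hδR
      have hℓD0 : 0 ≤ ℓ * D := by positivity
      rw [abs_le]
      constructor <;> linarith

/-- For every `r` there are a planar body and, for every `k ≥ 1`, a good configuration. -/
lemma exists_conf (r : ℕ) : ∃ (M : ℕ) (δ : ℝ), 2 ≤ M ∧ 0 < δ ∧ δ ≤ 1 ∧ δ * (M : ℝ) ^ 2 ≤ 1 ∧
    ∀ k : ℕ, ∃ (n : ℕ) (X Y : Fin n → ℝ) (ζ : Fin n → Fin (k + 1) → ℝ) (ρ : ℝ),
      Conf (k + 1) n r (body M δ ((1 + δ / 4) / 2)) (hw M δ ((1 + δ / 4) / 2)) X Y ζ ρ := by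
  obtain ⟨M, hMr⟩ : ∃ M : ℕ, M = r + 2 := ⟨_, rfl⟩
  have hM : 2 ≤ M := by omega
  have hM1 : 1 ≤ M := by omega
  have hM' : (2 : ℝ) ≤ M := by exact_mod_cast hM
  set R : ℝ := 4 * M with hR
  have hR1 : 1 < R := by rw [hR]; linarith
  have hRM : 1 ≤ R ^ M := one_le_pow₀ hR1.le
  set δ : ℝ := 1 / (2 * (M : ℝ) ^ 2 * R ^ M) with hδdef
  have hden : 0 < 2 * (M : ℝ) ^ 2 * R ^ M := by positivity
  have hδ0 : 0 < δ := by positivity
  have hδR : 2 * δ * (M : ℝ) ^ 2 * R ^ M ≤ 1 := by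
    have : 2 * δ * (M : ℝ) ^ 2 * R ^ M = δ * (2 * (M : ℝ) ^ 2 * R ^ M) := by ring
    rw [this, hδdef, one_div, inv_mul_cancel₀ hden.ne']
  have hδ : δ * (M : ℝ) ^ 2 ≤ 1 := by
    have h1 : 2 * δ * (M : ℝ) ^ 2 * 1 ≤ 2 * δ * (M : ℝ) ^ 2 * R ^ M :=
      mul_le_mul_of_nonneg_left hRM (by positivity)
    have h2 : 0 ≤ δ * (M : ℝ) ^ 2 := by positivity
    nlinarith
  have hδ1 : δ ≤ 1 := by
    have h1 : δ * 1 ≤ δ * (M : ℝ) ^ 2 := by
      apply mul_le_mul_of_nonneg_left _ hδ0.le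
      nlinarith
    linarith
  have hq1 : (1 + δ / 4) / 2 ≤ 1 := by linarith
  have hq0 : 0 < (1 + δ / 4) / 2 := by linarith
  refine ⟨M, δ, hM, hδ0, hδ1, hδ, ?_⟩
  intro k
  induction k with
  | zero =>
    obtain ⟨ρ₁, hρ₁, hs⟩ := robust_sep (body_compact M δ _ hM1 hq1 hδ0.le hδ)
      (base_sep hM1 (le_of_eq hR.symm) hδ0 hδ hδ1)
    obtain ⟨ρ₂, hρ₂, hn⟩ := robust_non (hw_cont M δ _) (hw_hom M δ _)
      (base_non hM (le_of_eq hR.symm) hδ0)
    refine ⟨M + 2, fun i => xb R δ (δ / 2) (i : ℕ), fun i => yb R (δ / 2) (i : ℕ),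
      fun i _ => zb R (i : ℕ), min ρ₁ ρ₂, lt_min hρ₁ hρ₂, ?_, ?_, ?_⟩
    · intro μ hμ hcard h1 h2 x hx h3 h4
      have hle : min ρ₁ ρ₂ * ∑ i, |μ i| ≤ ρ₁ * ∑ i, |μ i| :=
        mul_le_mul_of_nonneg_right (min_le_left _ _) hμ.le
      exact hs μ hμ hcard (h1.trans hle) (fun j => (h2 j).trans hle) x hx (h3.trans hle)
        (h4.trans hle)
    · intro a b c s hall
      apply hn a b c s
      intro i
      refine (hall i).trans ?_
      have : min ρ₁ ρ₂ * size a b c s ≤ ρ₂ * size a b c s :=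
        mul_le_mul_of_nonneg_right (min_le_right _ _) (size_nonneg _ _ _ _)
      linarith
    · intro S hS
      exact base_tra hM1 (by omega) (le_of_eq hR.symm) hδ0 hδ hδ1 hδR S hS
  | succ k ih =>
    obtain ⟨n, X, Y, ζ, ρ, hconf⟩ := ih
    obtain ⟨X', Y', ζ', ρ', hconf'⟩ := lift (C := M)
      (fun x hx => body_bound M δ _ hM1 hq1 hδ0.le hδ x hx) (by linarith)
      (fun a b => hw_le M δ _ a b hM1 hq1 hδ0.le hδ) hconf
    exact ⟨n + 1, X', Y', ζ', ρ', hconf'⟩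

/-! ### Assembly in Euclidean space -/

/-- the convex body in dimension `k + 2` -/
def bigBody (k M : ℕ) (δ q η : ℝ) : Set (EuclideanSpace ℝ (Fin (k + 2))) :=
  {x | (x 0, x 1) ∈ body M δ q ∧ ∀ j : Fin k, |x j.succ.succ| ≤ η}

/-- the centres -/
noncomputable def pos {k n : ℕ} (X Y : Fin n → ℝ) (ζ : Fin n → Fin k → ℝ) (i : Fin n) :
    EuclideanSpace ℝ (Fin (k + 2)) :=
  WithLp.toLp 2 (Fin.cons (X i) (Fin.cons (Y i) (ζ i) : Fin (k + 1) → ℝ) : Fin (k + 2) → ℝ)

lemma pos_zero {k n : ℕ} (X Y : Fin n → ℝ) (ζ : Fin n → Fin k → ℝ) (i : Fin n) :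
    pos X Y ζ i 0 = X i := by simp [pos]

lemma pos_one {k n : ℕ} (X Y : Fin n → ℝ) (ζ : Fin n → Fin k → ℝ) (i : Fin n) :
    pos X Y ζ i 1 = Y i := by
  have : (1 : Fin (k + 2)) = Fin.succ 0 := rfl
  rw [this]
  simp [pos]

lemma pos_succ {k n : ℕ} (X Y : Fin n → ℝ) (ζ : Fin n → Fin k → ℝ) (i : Fin n) (j : Fin k) :
    pos X Y ζ i j.succ.succ = ζ i j := by simp [pos]

lemma sum_split {k : ℕ} (f : Fin (k + 2) → ℝ) :
    ∑ i, f i = f 0 + f 1 + ∑ j : Fin k, f j.succ.succ := by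
  rw [Fin.sum_univ_succ, Fin.sum_univ_succ]
  have : (Fin.succ 0 : Fin (k + 2)) = 1 := rfl
  rw [this]
  ring

lemma hw_neg (M : ℕ) (δ q a b : ℝ) : hw M δ q (-a) (-b) = hw M δ q a b := by
  unfold hw
  have hneg : fw M δ (-a) (-b) = -fw M δ a b := by
    funext γ'
    simp only [fw, Pi.neg_apply]
    ring
  rw [hneg, norm_neg]

lemma body_abs {M : ℕ} {δ q : ℝ} {x : ℝ × ℝ} (hx : x ∈ body M δ q) (a b : ℝ) :
    |a * x.1 + b * x.2| ≤ hw M δ q a b := by
  have h1 := hx a b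
  have h2 := hx (-a) (-b)
  rw [hw_neg] at h2
  rw [abs_le]
  constructor <;> linarith

lemma bigBody_convex (k M : ℕ) (δ q η : ℝ) : Convex ℝ (bigBody k M δ q η) := by
  intro x hx y hy s t hs ht hst
  refine ⟨?_, ?_⟩
  · have := body_convex M δ q hx.1 hy.1 hs ht hst
    simpa using this
  · intro j
    have h1 := hx.2 j
    have h2 := hy.2 j
    simp only [PiLp.add_apply, PiLp.smul_apply, smul_eq_mul]
    calc |s * x j.succ.succ + t * y j.succ.succ| ≤ |s * x j.succ.succ| + |t * y j.succ.succ| :=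
          abs_add_le _ _
      _ = s * |x j.succ.succ| + t * |y j.succ.succ| := by
          rw [abs_mul, abs_mul, abs_of_nonneg hs, abs_of_nonneg ht]
      _ ≤ s * η + t * η :=
          add_le_add (mul_le_mul_of_nonneg_left h1 hs) (mul_le_mul_of_nonneg_left h2 ht)
      _ = η := by rw [← add_mul, hst, one_mul]

lemma bigBody_compact (k M : ℕ) (δ q η : ℝ) (hM : 1 ≤ M) (hq1 : q ≤ 1) (hδ0 : 0 ≤ δ)
    (hδ : δ * (M : ℝ) ^ 2 ≤ 1) (hη : 0 ≤ η) : IsCompact (bigBody k M δ q η) := by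
  apply Metric.isCompact_of_isClosed_isBounded
  · apply IsClosed.and
    · exact (body_closed M δ q).preimage
        (by fun_prop : Continuous (fun x : EuclideanSpace ℝ (Fin (k + 2)) => (x 0, x 1)))
    · simp only [Set.ofPred_forall]
      apply isClosed_iInter
      intro j
      exact isClosed_le (by fun_prop) continuous_const
  · rw [Metric.isBounded_iff_subset_closedBall 0]
    refine ⟨(k + 2) * (M + η), fun x hx => ?_⟩
    rw [mem_closedBall_zero_iff]
    have hM0 : (0 : ℝ) ≤ M := Nat.cast_nonneg _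
    have hb := body_bound M δ q hM hq1 hδ0 hδ _ hx.1
    have hcoord : ∀ i : Fin (k + 2), ‖x i‖ ^ 2 ≤ (M + η) ^ 2 := by
      intro i
      apply pow_le_pow_left₀ (norm_nonneg _)
      rw [Real.norm_eq_abs]
      refine Fin.cases ?_ (fun i => Fin.cases ?_ (fun i => ?_) i) i
      · have := hb.1
        simp only at this
        linarith
      · have := hb.2
        simp only at this
        exact this.trans (by linarith)
      · have := hx.2 i
        linarith
    have h1 : ‖x‖ ^ 2 ≤ ((k + 2) * (M + η)) ^ 2 := by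
      rw [EuclideanSpace.norm_sq_eq]
      calc ∑ i, ‖x i‖ ^ 2 ≤ ∑ _i : Fin (k + 2), (M + η) ^ 2 :=
            Finset.sum_le_sum (fun i _ => hcoord i)
        _ = (k + 2) * (M + η) ^ 2 := by simp
        _ ≤ ((k + 2) * (M + η)) ^ 2 := by
            rw [mul_pow]
            apply mul_le_mul_of_nonneg_right _ (sq_nonneg _)
            have : (0 : ℝ) ≤ k := Nat.cast_nonneg _
            nlinarith
    exact le_of_sq_le_sq h1 (by positivity)

lemma bigBody_interior (k M : ℕ) (δ q η : ℝ) (hM : 2 ≤ M) (hq : 1 / 2 ≤ q) (hδ0 : 0 ≤ δ)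
    (hδ1 : δ ≤ 1) (hη : 0 < η) : (interior (bigBody k M δ q η)).Nonempty := by
  refine ⟨0, mem_interior.mpr ⟨{x | (|x 0| < 1 / 14 ∧ |x 1| < 1 / 14) ∧
    ∀ j : Fin k, |x j.succ.succ| < η}, ?_, ?_, ?_⟩⟩
  · rintro x ⟨⟨h0, h1⟩, h2⟩
    refine ⟨?_, fun j => (h2 j).le⟩
    intro a b
    simp only
    have f0 := norm_le_pi_norm (fw M δ a b) ⟨0, by omega⟩
    have f1 := norm_le_pi_norm (fw M δ a b) ⟨1, by omega⟩
    rw [Real.norm_eq_abs] at f0 f1
    set F := ‖fw M δ a b‖ with hF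
    have e0 : fw M δ a b ⟨0, by omega⟩ = a * (1 - δ) + b := by
      unfold fw; simp
    have e1 : fw M δ a b ⟨1, by omega⟩ = a * (1 - 4 * δ) + 2 * b := by
      unfold fw; push_cast; ring
    rw [e0] at f0
    rw [e1] at f1
    have hF0 : 0 ≤ F := norm_nonneg _
    have ha : |a| ≤ 3 * F := by
      have h3 : |a| * (1 + 2 * δ) ≤ 3 * F := by
        have e2 : a * (1 + 2 * δ) = 2 * (a * (1 - δ) + b) - (a * (1 - 4 * δ) + 2 * b) := by ring
        have e3 : |a| * (1 + 2 * δ) = |a * (1 + 2 * δ)| := by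
          rw [abs_mul, abs_of_pos (by linarith : 0 < 1 + 2 * δ)]
        rw [e3, e2]
        calc _ ≤ |2 * (a * (1 - δ) + b)| + |a * (1 - 4 * δ) + 2 * b| := abs_sub _ _
          _ ≤ 2 * F + F := by
              rw [abs_mul, abs_of_pos (by norm_num : (0 : ℝ) < 2)]
              linarith
          _ = 3 * F := by ring
      have h4 : 0 ≤ |a| * (2 * δ) := by positivity
      nlinarith
    have hb : |b| ≤ 4 * F := by
      have e2 : b = (a * (1 - δ) + b) - a * (1 - δ) := by ring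
      have h3 : |b| ≤ |a * (1 - δ) + b| + |a * (1 - δ)| := by
        conv_lhs => rw [e2]
        exact abs_sub _ _
      rw [abs_mul, abs_of_nonneg (by linarith : 0 ≤ 1 - δ)] at h3
      have h4 : |a| * (1 - δ) ≤ |a| * 1 := mul_le_mul_of_nonneg_left (by linarith) (abs_nonneg _)
      linarith
    have h5 : a * x 0 ≤ |a| * (1 / 14) := by
      calc a * x 0 ≤ |a * x 0| := le_abs_self _
        _ = |a| * |x 0| := abs_mul _ _
        _ ≤ _ := mul_le_mul_of_nonneg_left h0.le (abs_nonneg _)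
    have h6 : b * x 1 ≤ |b| * (1 / 14) := by
      calc b * x 1 ≤ |b * x 1| := le_abs_self _
        _ = |b| * |x 1| := abs_mul _ _
        _ ≤ _ := mul_le_mul_of_nonneg_left h1.le (abs_nonneg _)
    have h7 : 1 / 2 * F ≤ hw M δ q a b := by
      unfold hw
      exact mul_le_mul_of_nonneg_right hq hF0
    linarith
  · apply IsOpen.and
    · apply IsOpen.and
      · exact isOpen_lt (by fun_prop) continuous_const
      · exact isOpen_lt (by fun_prop) continuous_const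
    · simp only [Set.ofPred_forall]
      apply isOpen_iInter_of_finite
      intro j
      exact isOpen_lt (by fun_prop) continuous_const
  · refine ⟨⟨by simp, by simp⟩, fun j => by simpa using hη⟩

lemma bridge_sep {k n r M : ℕ} {δ q η ρ : ℝ} {X Y : Fin n → ℝ} {ζ : Fin n → Fin k → ℝ}
    (hconf : Conf k n r (body M δ q) (hw M δ q) X Y ζ ρ) (hηρ : η ≤ ρ)
    (P : Finset (EuclideanSpace ℝ (Fin (k + 2)))) (hP : ∀ v ∈ P, ∃ i, pos X Y ζ i = v) :
    IsSeparated (k + 2) k (bigBody k M δ q η) P := by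
  classical
  rintro Q hQ hcard ⟨F, -, hdim, hmeet⟩
  have hch : ∀ v : Q, ∃ (i : Fin n) (κ : EuclideanSpace ℝ (Fin (k + 2))),
      pos X Y ζ i = v.1 ∧ κ ∈ bigBody k M δ q η ∧ κ + v.1 ∈ F := by
    rintro ⟨v, hv⟩
    obtain ⟨i, hi⟩ := hP v (hQ hv)
    obtain ⟨y, hyF, κ, hκ, rfl⟩ := hmeet v hv
    exact ⟨i, κ, hi, hκ, hyF⟩
  choose idx κ hidx hκ hF using hch
  have hinj : Function.Injective idx := by
    intro v v' h
    apply Subtype.ext
    rw [← hidx v, ← hidx v', h]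
  have hcardQ : Fintype.card Q = (k + 1) + 1 := by
    rw [Fintype.card_coe, hcard]
  have hdep : ¬ AffineIndependent ℝ (fun v : Q => κ v + v.1) := by
    intro hind
    have h1 := hind.finrank_vectorSpan hcardQ
    have h2 : vectorSpan ℝ (Set.range (fun v : Q => κ v + v.1)) ≤ F.direction := by
      rw [← direction_affineSpan]
      apply AffineSubspace.direction_le
      rw [affineSpan_le]
      rintro _ ⟨v, rfl⟩
      exact hF v
    have h3 := Submodule.finrank_mono h2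
    omega
  rw [affineIndependent_iff] at hdep
  push Not at hdep
  obtain ⟨s, w, hw0, hw1, v₀, hv₀, hv₀w⟩ := hdep
  set w' : Q → ℝ := fun v => if v ∈ s then w v else 0 with hw'
  have hsumw : ∀ g : Q → ℝ, ∑ v, w' v * g v = ∑ v ∈ s, w v * g v := by
    intro g
    simp only [hw', ite_mul, zero_mul]
    rw [Finset.sum_ite_mem, Finset.univ_inter]
  have hcoord : ∀ l : Fin (k + 2), ∑ v, w' v * (κ v l + (pos X Y ζ (idx v)) l) = 0 := by
    intro l
    rw [hsumw]
    have := congrArg (fun z : EuclideanSpace ℝ (Fin (k + 2)) => z l) hw1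
    simp only [WithLp.ofLp_sum, Finset.sum_apply, PiLp.smul_apply, PiLp.add_apply, smul_eq_mul,
      PiLp.zero_apply] at this
    rw [← this]
    apply Finset.sum_congr rfl
    intro v _
    rw [hidx v]
  set μ : Fin n → ℝ := Function.extend idx w' 0 with hμ
  have hμi : ∀ v, μ (idx v) = w' v := fun v => hinj.extend_apply w' 0 v
  have hμo : ∀ i, i ∉ Set.range idx → μ i = 0 := by
    intro i hi
    rw [hμ, Function.extend_apply' _ _ _ (by
      rintro ⟨v, hv⟩
      exact hi ⟨v, hv⟩)]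
    rfl
  have hsum : ∀ G : Fin n → ℝ, (∀ i, i ∉ Set.range idx → G i = 0) →
      ∑ i, G i = ∑ v, G (idx v) := by
    intro G hG
    exact (Fintype.sum_of_injective idx hinj (fun v => G (idx v)) G hG (fun _ => rfl)).symm
  have hm : ∑ i, |μ i| = ∑ v, |w' v| := by
    rw [hsum _ (fun i hi => by rw [hμo i hi, abs_zero])]
    exact Finset.sum_congr rfl (fun v _ => by rw [hμi])
  have hm0 : 0 < ∑ i, |μ i| := by
    rw [hm]
    have h1 : |w' v₀| ≤ ∑ v, |w' v| :=
      Finset.single_le_sum (f := fun v => |w' v|) (fun v _ => abs_nonneg _) (Finset.mem_univ v₀)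
    have h2 : 0 < |w' v₀| := by
      rw [abs_pos, hw']
      simp only [hv₀, if_true]
      exact hv₀w
    linarith
  set m := ∑ i, |μ i| with hmdef
  have hlin : ∀ (g : Fin n → ℝ), ∑ i, μ i * g i = ∑ v, w' v * g (idx v) := by
    intro g
    rw [hsum _ (fun i hi => by rw [hμo i hi, zero_mul])]
    exact Finset.sum_congr rfl (fun v _ => by rw [hμi])
  have hneg : ∀ l : Fin (k + 2), ∑ v, w' v * (pos X Y ζ (idx v)) l = -∑ v, w' v * κ v l := by
    intro l
    have := hcoord l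
    simp only [mul_add, Finset.sum_add_distrib] at this
    linarith
  -- the point of the body
  have habsκ : ∀ (g : Q → ℝ) (H : ℝ), (∀ v, |g v| ≤ H) → |∑ v, w' v * g v| ≤ H * m := by
    intro g H hg
    calc |∑ v, w' v * g v| ≤ ∑ v, |w' v * g v| := Finset.abs_sum_le_sum_abs _ _
      _ ≤ ∑ v, |w' v| * H := by
          apply Finset.sum_le_sum
          intro v _
          rw [abs_mul]
          exact mul_le_mul_of_nonneg_left (hg v) (abs_nonneg _)
      _ = H * m := by rw [← Finset.sum_mul, hm, mul_comm]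
  set x : ℝ × ℝ := (-(∑ v, w' v * κ v 0) / m, -(∑ v, w' v * κ v 1) / m) with hx
  have hxb : x ∈ body M δ q := by
    intro a b
    have h1 : a * x.1 + b * x.2 = -(∑ v, w' v * (a * κ v 0 + b * κ v 1)) / m := by
      rw [hx]
      simp only [mul_add, Finset.sum_add_distrib]
      have e1 : ∑ v, w' v * (a * κ v 0) = a * ∑ v, w' v * κ v 0 := by
        rw [Finset.mul_sum]
        exact Finset.sum_congr rfl (fun v _ => by ring)
      have e2 : ∑ v, w' v * (b * κ v 1) = b * ∑ v, w' v * κ v 1 := by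
        rw [Finset.mul_sum]
        exact Finset.sum_congr rfl (fun v _ => by ring)
      rw [e1, e2]
      ring
    rw [h1, div_le_iff₀ hm0]
    have h2 := habsκ (fun v => a * κ v 0 + b * κ v 1) (hw M δ q a b)
      (fun v => body_abs (hκ v).1 a b)
    have h3 := neg_abs_le (∑ v, w' v * (a * κ v 0 + b * κ v 1))
    linarith
  have hρm : 0 ≤ ρ * m := mul_nonneg hconf.pos.le hm0.le
  apply hconf.sep μ hm0 _ _ _ x hxb
  · -- first coordinate
    have h1 : ∑ i, μ i * X i = m * x.1 := by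
      rw [hlin X]
      have e1 : ∑ v, w' v * X (idx v) = ∑ v, w' v * (pos X Y ζ (idx v)) 0 :=
        Finset.sum_congr rfl (fun v _ => by rw [pos_zero])
      rw [e1, hneg 0, hx]
      field_simp
    rw [h1, sub_self, abs_zero]
    exact hρm
  · have h1 : ∑ i, μ i * Y i = m * x.2 := by
      rw [hlin Y]
      have e1 : ∑ v, w' v * Y (idx v) = ∑ v, w' v * (pos X Y ζ (idx v)) 1 :=
        Finset.sum_congr rfl (fun v _ => by rw [pos_one])
      rw [e1, hneg 1, hx]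
      field_simp
    rw [h1, sub_self, abs_zero]
    exact hρm
  · have hsub : Finset.univ.filter (fun i => μ i ≠ 0) ⊆ Finset.univ.image idx := by
      intro i hi
      by_contra hni
      apply (Finset.mem_filter.mp hi).2
      apply hμo
      rintro ⟨v, hv⟩
      exact hni (Finset.mem_image.mpr ⟨v, Finset.mem_univ _, hv⟩)
    refine (Finset.card_le_card hsub).trans (Finset.card_image_le.trans ?_)
    rw [Finset.card_univ, hcardQ]
  · have h1 : ∑ i, μ i = 0 := by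
      have := hlin (fun _ => 1)
      simp only [mul_one] at this
      rw [this]
      have := hsumw (fun _ => 1)
      simp only [mul_one] at this
      rw [this]
      exact hw0
    rw [h1, abs_zero]
    exact hρm
  · intro j
    rw [hlin (fun i => ζ i j)]
    have e1 : ∑ v, w' v * ζ (idx v) j = ∑ v, w' v * (pos X Y ζ (idx v)) j.succ.succ :=
      Finset.sum_congr rfl (fun v _ => by rw [pos_succ])
    rw [e1, hneg, abs_neg]
    refine (habsκ (fun v => κ v j.succ.succ) η (fun v => (hκ v).2 j)).trans ?_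
    exact mul_le_mul_of_nonneg_right hηρ hm0.le

lemma dual_apply {d : ℕ} (φ : Module.Dual ℝ (EuclideanSpace ℝ (Fin d)))
    (x : EuclideanSpace ℝ (Fin d)) :
    φ x = ∑ i, φ (EuclideanSpace.single i 1) * x i := by
  have h1 : x = ∑ i, x i • EuclideanSpace.single i (1 : ℝ) := by
    have := (EuclideanSpace.basisFun (Fin d) ℝ).sum_repr x
    simp only [EuclideanSpace.basisFun_repr, EuclideanSpace.basisFun_apply] at this
    exact this.symm
  conv_lhs => rw [h1]
  rw [map_sum]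
  apply Finset.sum_congr rfl
  intro i _
  rw [map_smul, smul_eq_mul, mul_comm]

lemma bridge_non {k n r M : ℕ} {δ q η ρ : ℝ} {X Y : Fin n → ℝ} {ζ : Fin n → Fin k → ℝ}
    (hconf : Conf k n r (body M δ q) (hw M δ q) X Y ζ ρ) (hη0 : 0 ≤ η) (hηρ : η ≤ ρ)
    (P : Finset (EuclideanSpace ℝ (Fin (k + 2)))) (hP : ∀ i, pos X Y ζ i ∈ P) :
    ¬ HasTransversal (k + 2) (k + 1) (bigBody k M δ q η) P := by
  rintro ⟨F, ⟨x₀, hx₀⟩, hdim, hmeet⟩
  have hlt : F.direction < ⊤ := by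
    rw [lt_top_iff_ne_top]
    intro htop
    rw [htop, finrank_top, finrank_euclideanSpace, Fintype.card_fin] at hdim
    omega
  obtain ⟨φ, hφ0, hφ⟩ := Submodule.exists_le_ker_of_lt_top _ hlt
  have hconst : ∀ y ∈ F, φ y = φ x₀ := by
    intro y hy
    have h1 := hφ (AffineSubspace.vsub_mem_direction hy hx₀)
    rw [LinearMap.mem_ker, vsub_eq_sub, map_sub] at h1
    linarith
  set a := φ (EuclideanSpace.single 0 1) with ha
  set b := φ (EuclideanSpace.single 1 1) with hb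
  set s : Fin k → ℝ := fun j => -φ (EuclideanSpace.single j.succ.succ 1) with hs
  have hφx : ∀ x : EuclideanSpace ℝ (Fin (k + 2)), φ x = a * x 0 + b * x 1 -
      ∑ j, s j * x j.succ.succ := by
    intro x
    rw [dual_apply φ x, sum_split]
    have : ∑ j, s j * x j.succ.succ =
        -∑ j : Fin k, φ (EuclideanSpace.single j.succ.succ 1) * x j.succ.succ := by
      rw [← Finset.sum_neg_distrib]
      exact Finset.sum_congr rfl (fun j _ => by rw [hs]; ring)
    rw [this]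
    ring
  have hsize : size a b (φ x₀) s = 0 := by
    apply hconf.non
    intro i
    obtain ⟨y, hyF, κ, hκ, rfl⟩ := hmeet _ (hP i)
    have h1 := hconst _ hyF
    rw [map_add, hφx κ, hφx (pos X Y ζ i), pos_zero, pos_one] at h1
    have h2 : ∑ j, s j * (pos X Y ζ i) j.succ.succ = ∑ j, s j * ζ i j :=
      Finset.sum_congr rfl (fun j _ => by rw [pos_succ])
    rw [h2] at h1
    have h3 : val X Y ζ a b (φ x₀) s i = -(a * κ 0 + b * κ 1) + ∑ j, s j * κ j.succ.succ := by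
      unfold val
      linarith
    rw [h3]
    have h4 : |a * κ 0 + b * κ 1| ≤ hw M δ q a b := body_abs hκ.1 a b
    have h5 : |∑ j, s j * κ j.succ.succ| ≤ ρ * size a b (φ x₀) s := by
      calc |∑ j, s j * κ j.succ.succ| ≤ ∑ j, |s j * κ j.succ.succ| :=
            Finset.abs_sum_le_sum_abs _ _
        _ ≤ ∑ j, |s j| * η := by
            apply Finset.sum_le_sum
            intro j _
            rw [abs_mul]
            exact mul_le_mul_of_nonneg_left (hκ.2 j) (abs_nonneg _)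
        _ = η * ∑ j, |s j| := by rw [← Finset.sum_mul, mul_comm]
        _ ≤ η * size a b (φ x₀) s := by
            apply mul_le_mul_of_nonneg_left _ hη0
            unfold size
            have := abs_nonneg a
            have := abs_nonneg b
            have := abs_nonneg (φ x₀)
            linarith
        _ ≤ ρ * size a b (φ x₀) s := mul_le_mul_of_nonneg_right hηρ (size_nonneg _ _ _ _)
    calc _ ≤ |-(a * κ 0 + b * κ 1)| + |∑ j, s j * κ j.succ.succ| := abs_add_le _ _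
      _ ≤ _ := by rw [abs_neg]; linarith
  have hsn : ∀ j, 0 ≤ |s j| := fun j => abs_nonneg _
  have hsum0 : 0 ≤ ∑ j, |s j| := Finset.sum_nonneg (fun j _ => hsn j)
  unfold size at hsize
  have a1 := abs_nonneg a
  have a2 := abs_nonneg b
  have a3 := abs_nonneg (φ x₀)
  have ha0 : a = 0 := abs_eq_zero.mp (by linarith)
  have hb0 : b = 0 := abs_eq_zero.mp (by linarith)
  have hs0 : ∑ j, |s j| = 0 := by linarith
  rw [Finset.sum_eq_zero_iff_of_nonneg (fun j _ => hsn j)] at hs0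
  apply hφ0
  apply LinearMap.ext
  intro x
  rw [hφx x, ha0, hb0]
  have : ∑ j, s j * x j.succ.succ = 0 := by
    apply Finset.sum_eq_zero
    intro j hj
    rw [abs_eq_zero.mp (hs0 j hj), zero_mul]
  rw [this]
  simp

lemma bridge_tra {k n r M : ℕ} {δ q η ρ : ℝ} {X Y : Fin n → ℝ} {ζ : Fin n → Fin k → ℝ}
    (hconf : Conf k n r (body M δ q) (hw M δ q) X Y ζ ρ) (hM : 1 ≤ M) (hq : 0 < q)
    (hη0 : 0 ≤ η) (Q : Finset (EuclideanSpace ℝ (Fin (k + 2))))
    (hQ : ∀ v ∈ Q, ∃ i, pos X Y ζ i = v) (hcard : Q.card ≤ r) :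
    HasTransversal (k + 2) (k + 1) (bigBody k M δ q η) Q := by
  classical
  have hch : ∀ v : Q, ∃ i, pos X Y ζ i = v.1 := fun v => hQ v.1 v.2
  choose idx hidx using hch
  obtain ⟨a, b, c, s, hpos, hval⟩ := hconf.tra (Finset.univ.image idx)
    (Finset.card_image_le.trans (by rw [Finset.card_univ, Fintype.card_coe]; exact hcard))
  have : Nonempty (Fin M) := ⟨⟨0, by omega⟩⟩
  obtain ⟨γ, hγ⟩ := Finite.exists_max (fun γ : Fin M => |fw M δ a b γ|)
  have hnorm : ‖fw M δ a b‖ = |fw M δ a b γ| := by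
    apply le_antisymm
    · rw [pi_norm_le_iff_of_nonneg (abs_nonneg _)]
      exact hγ
    · exact norm_le_pi_norm (fw M δ a b) γ
  have hh : hw M δ q a b = q * |fw M δ a b γ| := by unfold hw; rw [hnorm]
  have hf0 : fw M δ a b γ ≠ 0 := by
    intro h0
    rw [hh, h0, abs_zero, mul_zero] at hpos
    exact lt_irrefl _ hpos
  -- the functional
  set coef : Fin (k + 2) → ℝ := Fin.cons a (Fin.cons b (fun j => -s j) : Fin (k + 1) → ℝ)
    with hcoef
  let φ : Module.Dual ℝ (EuclideanSpace ℝ (Fin (k + 2))) :=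
    ∑ i, coef i • (EuclideanSpace.proj i : EuclideanSpace ℝ (Fin (k + 2)) →L[ℝ] ℝ).toLinearMap
  have hφx : ∀ x : EuclideanSpace ℝ (Fin (k + 2)), φ x = a * x 0 + b * x 1 -
      ∑ j, s j * x j.succ.succ := by
    intro x
    have h1 : φ x = ∑ i, coef i * x i := by
      simp only [φ, LinearMap.sum_apply, LinearMap.smul_apply, smul_eq_mul]
      rfl
    rw [h1, sum_split]
    have c0 : coef 0 = a := by rw [hcoef]; rfl
    have c1 : coef 1 = b := by
      have : (1 : Fin (k + 2)) = Fin.succ 0 := rfl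
      rw [this, hcoef]
      simp
    have c2 : ∀ j : Fin k, coef j.succ.succ = -s j := by intro j; rw [hcoef]; simp
    rw [c0, c1]
    have : ∑ j : Fin k, coef j.succ.succ * x j.succ.succ = -∑ j, s j * x j.succ.succ := by
      rw [← Finset.sum_neg_distrib]
      exact Finset.sum_congr rfl (fun j _ => by rw [c2]; ring)
    rw [this]
    ring
  have hφ0 : φ ≠ 0 := by
    intro h0
    set u : EuclideanSpace ℝ (Fin (k + 2)) := WithLp.toLp 2
      (Fin.cons (1 - δ * ((γ : ℕ) + 1 : ℝ) ^ 2)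
        (Fin.cons ((γ : ℕ) + 1 : ℝ) (fun _ => 0) : Fin (k + 1) → ℝ)) with hu
    have u0 : u 0 = 1 - δ * ((γ : ℕ) + 1 : ℝ) ^ 2 := by rw [hu]; simp
    have u1 : u 1 = ((γ : ℕ) + 1 : ℝ) := by
      have : (1 : Fin (k + 2)) = Fin.succ 0 := rfl
      rw [this, hu]
      simp
    have u2 : ∀ j : Fin k, u j.succ.succ = 0 := by intro j; rw [hu]; simp
    have h1 := hφx u
    rw [h0, u0, u1] at h1
    have h2 : ∑ j, s j * u j.succ.succ = 0 := by
      apply Finset.sum_eq_zero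
      intro j _
      rw [u2, mul_zero]
    rw [h2, sub_zero] at h1
    exact hf0 h1.symm
  obtain ⟨x₀, hx₀⟩ := LinearMap.surjective hφ0 c
  refine ⟨AffineSubspace.mk' x₀ (LinearMap.ker φ), ⟨x₀, AffineSubspace.self_mem_mk' _ _⟩, ?_, ?_⟩
  · rw [AffineSubspace.direction_mk']
    have := Module.Dual.finrank_ker_add_one_of_ne_zero hφ0
    rw [finrank_euclideanSpace, Fintype.card_fin] at this
    omega
  · intro v hv
    set i := idx ⟨v, hv⟩ with hi
    have hvi : pos X Y ζ i = v := hidx ⟨v, hv⟩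
    have hvl := hval i (Finset.mem_image.mpr ⟨⟨v, hv⟩, Finset.mem_univ _, rfl⟩)
    set θ := -(val X Y ζ a b c s i) / (q * fw M δ a b γ) with hθ
    have hqf : q * fw M δ a b γ ≠ 0 := mul_ne_zero hq.ne' hf0
    have hθ1 : |θ| ≤ 1 := by
      rw [hθ, abs_div, abs_neg, abs_mul, abs_of_pos hq, ← hh, div_le_one hpos]
      exact hvl.le
    set w1 : ℝ := 1 - δ * ((γ : ℕ) + 1 : ℝ) ^ 2 with hw1
    set w2 : ℝ := ((γ : ℕ) + 1 : ℝ) with hw2
    set κ : EuclideanSpace ℝ (Fin (k + 2)) := WithLp.toLp 2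
      (Fin.cons (θ * q * w1) (Fin.cons (θ * q * w2) (fun _ => 0) : Fin (k + 1) → ℝ)) with hκ
    have κ0 : κ 0 = θ * q * w1 := by rw [hκ]; simp
    have κ1 : κ 1 = θ * q * w2 := by
      have : (1 : Fin (k + 2)) = Fin.succ 0 := rfl
      rw [this, hκ]
      simp
    have κ2 : ∀ j : Fin k, κ j.succ.succ = 0 := by intro j; rw [hκ]; simp
    have hκK : κ ∈ bigBody k M δ q η := by
      refine ⟨?_, fun j => by rw [κ2, abs_zero]; exact hη0⟩
      intro a' b'
      simp only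
      rw [κ0, κ1]
      have h1 : a' * (θ * q * w1) + b' * (θ * q * w2) = θ * (q * fw M δ a' b' γ) := by
        unfold fw
        ring
      rw [h1]
      calc θ * (q * fw M δ a' b' γ) ≤ |θ * (q * fw M δ a' b' γ)| := le_abs_self _
        _ = |θ| * (q * |fw M δ a' b' γ|) := by rw [abs_mul, abs_mul, abs_of_pos hq]
        _ ≤ 1 * (q * |fw M δ a' b' γ|) :=
            mul_le_mul_of_nonneg_right hθ1 (by positivity)
        _ = q * |fw M δ a' b' γ| := one_mul _
        _ ≤ hw M δ q a' b' := by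
            unfold hw
            exact mul_le_mul_of_nonneg_left (norm_le_pi_norm (fw M δ a' b') γ) hq.le
    refine ⟨κ + v, ?_, κ, hκK, rfl⟩
    rw [SetLike.mem_coe, AffineSubspace.mem_mk', LinearMap.mem_ker, vsub_eq_sub, map_sub, map_add,
      hx₀, ← hvi, hφx κ, hφx (pos X Y ζ i), pos_zero, pos_one, κ0, κ1]
    have h2 : ∑ j, s j * (pos X Y ζ i) j.succ.succ = ∑ j, s j * ζ i j :=
      Finset.sum_congr rfl (fun j _ => by rw [pos_succ])
    have h3 : ∑ j, s j * κ j.succ.succ = 0 := by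
      apply Finset.sum_eq_zero
      intro j _
      rw [κ2, mul_zero]
    rw [h2, h3]
    have h4 : a * (θ * q * w1) + b * (θ * q * w2) = -(val X Y ζ a b c s i) := by
      have h5 : a * (θ * q * w1) + b * (θ * q * w2) = θ * (q * fw M δ a b γ) := by
        unfold fw
        ring
      rw [h5, hθ]
      field_simp
    unfold val at h4
    linarith

/-- In every dimension `d ≥ 3` there is no Helly number for hyperplane transversals of
`(d-2)`-separated families of translates of a convex body. -/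
theorem result : ∀ d : ℕ, 3 ≤ d → ∀ r : ℕ,
    ∃ K : Set (EuclideanSpace ℝ (Fin d)), IsCompact K ∧ Convex ℝ K ∧ (interior K).Nonempty ∧
      ∃ P : Finset (EuclideanSpace ℝ (Fin d)), IsSeparated d (d - 2) K P ∧
        (∀ Q ⊆ P, Q.card ≤ r → HasTransversal d (d - 1) K Q) ∧
        ¬ HasTransversal d (d - 1) K P := by
  classical
  intro d hd r
  obtain ⟨k, rfl⟩ : ∃ k, d = k + 1 + 2 := ⟨d - 3, by omega⟩
  obtain ⟨M, δ, hM, hδ0, hδ1, hδ, hall⟩ := exists_conf r
  obtain ⟨n, X, Y, ζ, ρ, hconf⟩ := hall k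
  have hρ := hconf.pos
  have e1 : k + 1 + 2 - 2 = k + 1 := by omega
  have e2 : k + 1 + 2 - 1 = k + 1 + 1 := by omega
  rw [e1, e2]
  refine ⟨bigBody (k + 1) M δ ((1 + δ / 4) / 2) ρ,
    bigBody_compact _ _ _ _ _ (by omega) (by linarith) hδ0.le hδ hρ.le,
    bigBody_convex _ _ _ _ _, bigBody_interior _ _ _ _ _ hM (by linarith) hδ0.le hδ1 hρ,
    Finset.univ.image (pos X Y ζ), ?_, ?_, ?_⟩
  · apply bridge_sep hconf le_rfl
    intro v hv
    obtain ⟨i, _, hi⟩ := Finset.mem_image.mp hv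
    exact ⟨i, hi⟩
  · intro Q hQ hcard
    apply bridge_tra hconf (by omega) (by linarith) hρ.le Q _ hcard
    intro v hv
    obtain ⟨i, _, hi⟩ := Finset.mem_image.mp (hQ hv)
    exact ⟨i, hi⟩
  · apply bridge_non hconf hρ.le le_rfl
    intro i
    exact Finset.mem_image.mpr ⟨i, Finset.mem_univ _, rfl⟩

end Pool.Agent.Results.MP_23085c_co.NoHellyTransversal
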